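import Mathlib
import Pool.Agent.H153R4.Pl
set_option autoImplicit false

/-! Fixed time identities for the extension operator of the paraboloid over the plane. -/

namespace Pool.Agent.Y250.CT

open MeasureTheory Set Complex Filter Topology
open scoped ENNReal NNReal FourierTransform ComplexConjugate Convolution

noncomputable def ee (r : ℝ) : ℂ := cexp ((r : ℂ) * I)

/-- real inner product of the plane -/
def dt (x y : ℂ) : ℝ := x.re * y.re + x.im * y.im

lemma norm_ee (r : ℝ) : ‖ee r‖ = 1 := by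
  unfold ee; exact Complex.norm_exp_ofReal_mul_I _

lemma ee_add (r s : ℝ) : ee (r + s) = ee r * ee s := by
  unfold ee; rw [← Complex.exp_add]; congr 1; push_cast; ring

lemma ee_zero : ee 0 = 1 := by unfold ee; simp

lemma ee_cont : Continuous ee := by
  unfold ee; fun_prop

lemma ee_meas : Measurable ee := ee_cont.measurable

lemma ee_conj (r : ℝ) : conj (ee r) = ee (-r) := by
  unfold ee
  rw [← Complex.exp_conj]
  congr 1
  simp

lemma dt_cont : Continuous (fun p : ℂ × ℂ => dt p.1 p.2) := by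
  unfold dt; fun_prop

/-- the extension operator -/
noncomputable def Ext (f : ℂ → ℂ) (p : ℂ × ℝ) : ℂ :=
  ∫ ξ, ee (-(dt p.1 ξ + p.2 * ‖ξ‖ ^ 2)) * f ξ

/-- the density at time `t` -/
noncomputable def ft (f : ℂ → ℂ) (t : ℝ) (ξ : ℂ) : ℂ := ee (-(t * ‖ξ‖ ^ 2)) * f ξ

/-- the autocorrelation -/
noncomputable def ac (F : ℂ → ℂ) (l : ℂ) : ℂ := ∫ m, F (m + l) * conj (F m)

/-- bounded measurable functions supported in the disc of radius `1/2` -/
structure Adm (F : ℂ → ℂ) (B : ℝ) : Prop where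
  meas : Measurable F
  bd : ∀ ξ, ‖F ξ‖ ≤ B
  supp : ∀ ξ, 1 / 2 < ‖ξ‖ → F ξ = 0

lemma Adm.nonneg {F : ℂ → ℂ} {B : ℝ} (h : Adm F B) : 0 ≤ B := (norm_nonneg _).trans (h.bd 0)

lemma Adm.integrable {F : ℂ → ℂ} {B : ℝ} (h : Adm F B) : Integrable F := by
  have h1 : IntegrableOn F (Metric.closedBall 0 (1 / 2)) := by
    apply Measure.integrableOn_of_bounded (M := B) (measure_closedBall_lt_top).ne
    · exact h.meas.aestronglyMeasurable
    · exact ae_of_all _ fun ξ => h.bd ξ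
  rw [integrableOn_iff_integrable_of_support_subset] at h1
  · exact h1
  · intro ξ hξ
    rw [mem_closedBall_zero_iff]
    by_contra hc
    push Not at hc
    exact hξ (h.supp ξ hc)

lemma memLp_two (F : ℂ → ℂ) (B : ℝ) (h1 : Integrable F) (h2 : ∀ ξ, ‖F ξ‖ ≤ B) : MemLp F 2 := by
  rw [memLp_two_iff_integrable_sq_norm h1.1]
  refine (h1.norm.const_mul B).mono' (h1.1.norm.pow 2) (ae_of_all _ fun ξ => ?_)
  rw [Real.norm_eq_abs, abs_of_nonneg (by positivity), sq]
  exact mul_le_mul_of_nonneg_right (h2 ξ) (norm_nonneg _)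

lemma Adm.memLp {F : ℂ → ℂ} {B : ℝ} (h : Adm F B) : MemLp F 2 := memLp_two F B h.integrable h.bd

lemma ft_norm (f : ℂ → ℂ) (t : ℝ) (ξ : ℂ) : ‖ft f t ξ‖ = ‖f ξ‖ := by
  unfold ft
  rw [norm_mul, norm_ee, one_mul]

lemma ft_meas (f : ℂ → ℂ) (hf : Measurable f) (t : ℝ) : Measurable (ft f t) := by
  unfold ft
  exact (ee_cont.comp (by fun_prop)).measurable.mul hf

lemma Adm.ft {f : ℂ → ℂ} {B : ℝ} (h : Adm f B) (t : ℝ) : Adm (ft f t) B where
  meas := ft_meas f h.meas t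
  bd := fun ξ => by rw [ft_norm]; exact h.bd ξ
  supp := fun ξ hξ => by unfold CT.ft; rw [h.supp ξ hξ, mul_zero]

/-- the reflected conjugate -/
noncomputable def rc (F : ℂ → ℂ) (x : ℂ) : ℂ := conj (F (-x))

lemma ac_eq (F : ℂ → ℂ) : ac F = F ⋆[ContinuousLinearMap.mul ℂ ℂ] (rc F) := by
  ext l
  unfold ac
  rw [convolution_def]
  have h := integral_add_right_eq_self (μ := volume)
    (fun m : ℂ => (ContinuousLinearMap.mul ℂ ℂ) (F m) (rc F (l - m))) l
  rw [← h]
  apply integral_congr_ae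
  refine ae_of_all _ fun m => ?_
  simp only [ContinuousLinearMap.mul_apply', rc]
  congr 3
  ring

lemma rc_int (F : ℂ → ℂ) (h : Integrable F) : Integrable (rc F) := by
  have h1 : Integrable fun x => F (-x) := h.comp_neg
  refine h1.norm.mono' ?_ (ae_of_all _ fun x => ?_)
  · exact Complex.continuous_conj.comp_aestronglyMeasurable h1.1
  · unfold rc
    rw [RCLike.norm_conj]

lemma rc_fourier (F : ℂ → ℂ) (y : ℂ) : 𝓕 (rc F) y = conj (𝓕 F y) := by
  rw [Real.fourier_eq', Real.fourier_eq', ← integral_conj]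
  have h := integral_neg_eq_self (fun v : ℂ =>
    conj (cexp (((-2 * Real.pi * inner ℝ v y : ℝ) : ℂ) * I) • F v)) (μ := (volume : Measure ℂ))
  rw [← h]
  apply integral_congr_ae
  refine ae_of_all _ fun v => ?_
  simp only [smul_eq_mul, map_mul, rc]
  congr 1
  rw [← Complex.exp_conj]
  congr 1
  rw [map_mul, Complex.conj_ofReal, Complex.conj_I, inner_neg_left]
  push_cast
  ring

lemma ac_int (F : ℂ → ℂ) (h : Integrable F) : Integrable (ac F) := by
  rw [ac_eq]
  exact h.integrable_convolution _ (rc_int F h)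

lemma ac_fourier (F : ℂ → ℂ) (h : Integrable F) (y : ℂ) : 𝓕 (ac F) y = 𝓕 F y * conj (𝓕 F y) := by
  rw [ac_eq, Real.fourier_mul_convolution_eq h (rc_int F h), rc_fourier]

lemma Adm.ac_bd {F : ℂ → ℂ} {B : ℝ} (h : Adm F B) (l : ℂ) : ‖ac F l‖ ≤ B ^ 2 := by
  unfold ac
  have hB := h.nonneg
  have h0 : (fun m => F (m + l) * conj (F m)) =
      (Metric.closedBall (0 : ℂ) (1 / 2)).indicator fun m => F (m + l) * conj (F m) := by
    ext m
    by_cases hm : m ∈ Metric.closedBall (0 : ℂ) (1 / 2)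
    · rw [indicator_of_mem hm]
    · rw [indicator_of_notMem hm, h.supp m (by rw [mem_closedBall_zero_iff] at hm; linarith), map_zero,
        mul_zero]
  rw [h0, integral_indicator Metric.isClosed_closedBall.measurableSet]
  have h1 := norm_setIntegral_le_of_norm_le_const (μ := volume) (s := Metric.closedBall (0 : ℂ) (1 / 2))
    (f := fun m => F (m + l) * conj (F m)) (C := B ^ 2) measure_closedBall_lt_top (fun m _ => by
      rw [norm_mul, RCLike.norm_conj, sq]
      exact mul_le_mul (h.bd _) (h.bd _) (norm_nonneg _) hB)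
  refine h1.trans ?_
  have h2 : (volume : Measure ℂ).real (Metric.closedBall 0 (1 / 2)) ≤ 1 := by
    unfold Measure.real
    rw [Complex.volume_closedBall, ← ENNReal.ofReal_pow (by norm_num)]
    rw [ENNReal.toReal_mul, ENNReal.toReal_ofReal (by norm_num)]
    rw [ENNReal.coe_toReal, NNReal.coe_real_pi]
    have := Real.pi_le_four
    nlinarith
  calc B ^ 2 * (volume : Measure ℂ).real (Metric.closedBall 0 (1 / 2)) ≤ B ^ 2 * 1 := by gcongr
    _ = _ := mul_one _

lemma lint_smul (r : ℝ) (hr : r ≠ 0) (F : ℂ → ℝ≥0∞) :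
    ∫⁻ x : ℂ, F (r • x) = ENNReal.ofReal |(r ^ 2)⁻¹| * ∫⁻ x, F x := by
  have h := Measure.map_addHaar_smul (volume : Measure ℂ) hr
  rw [Complex.finrank_real_complex] at h
  have h2 := (Homeomorph.smulOfNeZero r hr : ℂ ≃ₜ ℂ).measurableEmbedding.lintegral_map
    (μ := (volume : Measure ℂ)) F
  have h3 : (⇑(Homeomorph.smulOfNeZero r hr : ℂ ≃ₜ ℂ)) = (fun x : ℂ => r • x) := rfl
  rw [h3] at h2
  rw [← h2]
  have h4 : Measure.map (fun x : ℂ => r • x) (volume : Measure ℂ) =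
      ENNReal.ofReal |(r ^ 2)⁻¹| • (volume : Measure ℂ) := h
  rw [h4, lintegral_smul_measure, smul_eq_mul]

lemma Ext_fourier (f : ℂ → ℂ) (x : ℂ) (t : ℝ) :
    Ext f (x, t) = 𝓕 (ft f t) (((2 * Real.pi : ℝ)⁻¹ : ℝ) • x) := by
  rw [Real.fourier_eq']
  unfold Ext
  apply integral_congr_ae
  refine ae_of_all _ fun ξ => ?_
  simp only [ft, smul_eq_mul]
  rw [← mul_assoc]
  congr 1
  unfold ee
  rw [← Complex.exp_add]
  congr 1
  rw [real_inner_smul_right]
  have : inner ℝ ξ x = dt x ξ := by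
    rw [Complex.inner]
    unfold dt
    simp
  rw [this]
  have hpi : (Real.pi : ℂ) ≠ 0 := by exact_mod_cast Real.pi_ne_zero
  push_cast
  field_simp
  ring

/-- Plancherel at a fixed time -/
theorem two (f : ℂ → ℂ) (B : ℝ) (hf : Adm f B) (t : ℝ) :
    ∫⁻ x, ‖Ext f (x, t)‖ₑ ^ 2 = ENNReal.ofReal ((2 * Real.pi) ^ 2) * ∫⁻ ξ, ‖f ξ‖ₑ ^ 2 := by
  have hpl := Pool.Agent.H153R4.plancherel (ft f t) (hf.ft t).integrable (hf.ft t).memLp
  simp only [Ext_fourier]
  rw [lint_smul _ (by positivity) (fun y => ‖𝓕 (ft f t) y‖ₑ ^ 2), hpl]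
  congr 1
  · congr 1
    rw [abs_of_nonneg (by positivity)]
    rw [inv_pow, inv_inv]
  · apply lintegral_congr
    intro ξ
    rw [← ofReal_norm, ← ofReal_norm, ft_norm]

/-- the `L^4` norm at a fixed time -/
theorem four (f : ℂ → ℂ) (B : ℝ) (hf : Adm f B) (t : ℝ) :
    ∫⁻ x, ‖Ext f (x, t)‖ₑ ^ 4 = ENNReal.ofReal ((2 * Real.pi) ^ 2) * ∫⁻ l, ‖ac (ft f t) l‖ₑ ^ 2 := by
  have hi := (hf.ft t).integrable
  have h2 := memLp_two (ac (ft f t)) (B ^ 2) (ac_int _ hi) (hf.ft t).ac_bd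
  have hpl := Pool.Agent.H153R4.plancherel (ac (ft f t)) (ac_int _ hi) h2
  simp only [Ext_fourier]
  rw [lint_smul _ (by positivity) (fun y => ‖𝓕 (ft f t) y‖ₑ ^ 4), ← hpl]
  congr 1
  · congr 1
    rw [abs_of_nonneg (by positivity)]
    rw [inv_pow, inv_inv]
  · apply lintegral_congr
    intro y
    rw [ac_fourier _ hi, enorm_mul]
    have : ‖conj (𝓕 (ft f t) y)‖ₑ = ‖𝓕 (ft f t) y‖ₑ := by
      rw [← ofReal_norm, ← ofReal_norm, RCLike.norm_conj]
    rw [this]
    ring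

/-- interpolation -/
lemma interp {α : Type*} [MeasurableSpace α] (μ : Measure α) (F : α → ℝ≥0∞) (hF : Measurable F) (q : ℝ)
    (hq1 : 2 < q) (hq2 : q < 4) :
    ∫⁻ x, F x ^ q ∂μ ≤ (∫⁻ x, F x ^ 2 ∂μ) ^ ((4 - q) / 2) * (∫⁻ x, F x ^ 4 ∂μ) ^ ((q - 2) / 2) := by
  have h := ENNReal.lintegral_mul_norm_pow_le (μ := μ) (hF.pow_const 2).aemeasurable
    (hF.pow_const 4).aemeasurable (p := (4 - q) / 2) (q := (q - 2) / 2) (by linarith) (by linarith) (by ring)
  refine le_trans (le_of_eq ?_) h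
  apply lintegral_congr
  intro x
  rw [← ENNReal.rpow_natCast (F x) 2, ← ENNReal.rpow_natCast (F x) 4, ← ENNReal.rpow_mul, ← ENNReal.rpow_mul,
    ← ENNReal.rpow_add_of_nonneg _ _ (by push_cast; linarith) (by push_cast; linarith)]
  congr 1
  push_cast
  ring

lemma Ext_sup (f : ℂ → ℂ) (p : ℂ × ℝ) : ‖Ext f p‖ₑ ≤ ∫⁻ ξ, ‖f ξ‖ₑ := by
  unfold Ext
  refine (enorm_integral_le_lintegral_enorm _).trans (le_of_eq ?_)
  apply lintegral_congr
  intro ξ
  rw [enorm_mul, ← ofReal_norm (ee _), norm_ee, ENNReal.ofReal_one, one_mul]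

lemma Ext_meas (f : ℂ → ℂ) (hf : Measurable f) : Measurable (Ext f) := by
  have h1 : StronglyMeasurable (fun p : (ℂ × ℝ) × ℂ =>
      ee (-(dt p.1.1 p.2 + p.1.2 * ‖p.2‖ ^ 2)) * f p.2) := by
    apply Measurable.stronglyMeasurable
    have h2 : Continuous fun p : (ℂ × ℝ) × ℂ => ee (-(dt p.1.1 p.2 + p.1.2 * ‖p.2‖ ^ 2)) := by
      apply ee_cont.comp
      have h4 : Continuous fun p : (ℂ × ℝ) × ℂ => dt p.1.1 p.2 :=
        dt_cont.comp ((continuous_fst.comp continuous_fst).prodMk continuous_snd)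
      fun_prop
    exact h2.measurable.mul (hf.comp measurable_snd)
  exact (h1.integral_prod_right' (ν := volume)).measurable

end Pool.Agent.Y250.CT
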