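import Mathlib
import Pool.Agent.H728R3.SR.A
set_option autoImplicit false

/-! Oscillatory integrals with quadratic phase and an amplitude of bounded variation. -/

namespace Pool.Agent.Y250.CT

open MeasureTheory Set Complex Filter Topology
open scoped ENNReal NNReal

/-- layer cake: monotone amplitude -/
lemma mono_bd (w : ℝ → ℝ) (hw : MonotoneOn w (Icc (-1) 1)) (K : ℝ) (h0 : ∀ x ∈ Icc (-1 : ℝ) 1, 0 ≤ w x)
    (hK : ∀ x ∈ Icc (-1 : ℝ) 1, w x ≤ K) (h : ℝ → ℂ) (hc : Continuous h) (M : ℝ)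
    (hM : ∀ a b : ℝ, -1 ≤ a → a ≤ b → b ≤ 1 → ‖∫ x in a..b, h x‖ ≤ M) :
    ‖∫ x in Icc (-1 : ℝ) 1, (w x : ℂ) * h x‖ ≤ K * M := by
  have hK0 : 0 ≤ K := (h0 0 ⟨by norm_num, by norm_num⟩).trans (hK 0 ⟨by norm_num, by norm_num⟩)
  have hM0 : 0 ≤ M := (norm_nonneg _).trans (hM 0 0 (by norm_num) le_rfl (by norm_num))
  have hwm : AEMeasurable w (volume.restrict (Icc (-1 : ℝ) 1)) :=
    aemeasurable_restrict_of_monotoneOn measurableSet_Icc hw
  set w' : ℝ → ℝ := fun x => if x < -1 then w (-1) else if 1 < x then w 1 else w x with hw'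
  have hw'mono : Monotone w' := by
    intro x y hxy
    have m1 : (-1 : ℝ) ∈ Icc (-1 : ℝ) 1 := ⟨le_rfl, by norm_num⟩
    have m2 : (1 : ℝ) ∈ Icc (-1 : ℝ) 1 := ⟨by norm_num, le_rfl⟩
    simp only [hw']
    split_ifs with a1 a2 a3 a4 a5 a6 a7 a8
    all_goals first | exact le_rfl | linarith | skip
    · exact hw m1 m2 (by norm_num)
    · exact hw m1 ⟨by linarith, by linarith⟩ (by linarith)
    · exact hw ⟨by linarith, by linarith⟩ m2 (by linarith)
    · exact hw ⟨by linarith, by linarith⟩ ⟨by linarith, by linarith⟩ hxy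
  have hweq : ∀ x ∈ Icc (-1 : ℝ) 1, w' x = w x := by
    intro x hx
    simp only [hw']
    rw [if_neg (by linarith [hx.1]), if_neg (by linarith [hx.2])]
  have hw'meas : Measurable w' := hw'mono.measurable
  -- the integrand as an integral over levels
  set Φ : ℝ → ℝ → ℂ := fun x y => if y < w' x then h x else 0 with hΦ
  have e1 : ∀ x ∈ Icc (-1 : ℝ) 1, (w x : ℂ) * h x = ∫ y in Icc (0 : ℝ) K, Φ x y := by
    intro x hx
    have hwx := h0 x hx
    have hwK := hK x hx
    have e2 : (fun y => Φ x y) = (Iio (w x)).indicator fun _ => h x := by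
      ext y
      simp only [hΦ, hweq x hx, indicator, mem_Iio]
    rw [e2, setIntegral_indicator measurableSet_Iio, setIntegral_const]
    have e3 : Icc (0 : ℝ) K ∩ Iio (w x) = Ico 0 (w x) := by
      ext y
      constructor
      · rintro ⟨h1, h2⟩
        exact ⟨h1.1, h2⟩
      · rintro ⟨h1, h2⟩
        exact ⟨⟨h1, by linarith⟩, h2⟩
    rw [e3]
    unfold Measure.real
    rw [Real.volume_Ico, sub_zero, ENNReal.toReal_ofReal hwx]
    rw [Complex.real_smul]
  have hbd : ∀ p : ℝ × ℝ, ‖Φ p.1 p.2‖ ≤ ‖h p.1‖ := by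
    intro p
    simp only [hΦ]
    split_ifs
    · exact le_rfl
    · rw [norm_zero]; exact norm_nonneg _
  have hΦm : Measurable (Function.uncurry Φ) := by
    have : Function.uncurry Φ = {p : ℝ × ℝ | p.2 < w' p.1}.indicator fun p => h p.1 := by
      ext p
      simp only [hΦ, Function.uncurry, indicator, mem_ofPred_eq]
    rw [this]
    apply Measurable.indicator
    · exact hc.measurable.comp measurable_fst
    · exact measurableSet_lt measurable_snd (hw'meas.comp measurable_fst)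
  have hΦi : Integrable (Function.uncurry Φ)
      ((volume.restrict (Icc (-1 : ℝ) 1)).prod (volume.restrict (Icc (0 : ℝ) K))) := by
    have hh : Integrable (fun p : ℝ × ℝ => h p.1)
        ((volume.restrict (Icc (-1 : ℝ) 1)).prod (volume.restrict (Icc (0 : ℝ) K))) := by
      have := (hc.integrableOn_Icc (a := (-1 : ℝ)) (b := 1) (μ := volume))
      exact this.comp_fst _
    exact hh.norm.mono' hΦm.aestronglyMeasurable (ae_of_all _ hbd)
  have e4 : ∫ x in Icc (-1 : ℝ) 1, (w x : ℂ) * h x =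
      ∫ x in Icc (-1 : ℝ) 1, ∫ y in Icc (0 : ℝ) K, Φ x y :=
    setIntegral_congr_fun measurableSet_Icc e1
  rw [e4, integral_integral_swap hΦi]
  have e5 : ∀ y : ℝ, ‖∫ x in Icc (-1 : ℝ) 1, Φ x y‖ ≤ M := by
    intro y
    set S : Set ℝ := {x | x ∈ Icc (-1 : ℝ) 1 ∧ y < w x} with hS
    have hSm : MeasurableSet S := by
      have : S = Icc (-1 : ℝ) 1 ∩ {x | y < w' x} := by
        ext x
        constructor
        · rintro ⟨h1, h2⟩
          exact ⟨h1, by rw [mem_ofPred_eq, hweq x h1]; exact h2⟩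
        · rintro ⟨h1, h2⟩
          rw [mem_ofPred_eq, hweq x h1] at h2
          exact ⟨h1, h2⟩
      rw [this]
      exact measurableSet_Icc.inter (measurableSet_lt measurable_const hw'meas)
    have e6 : ∫ x in Icc (-1 : ℝ) 1, Φ x y = ∫ x in S, h x := by
      have : ∀ x ∈ Icc (-1 : ℝ) 1, Φ x y = S.indicator h x := by
        intro x hx
        simp only [hΦ, hweq x hx, indicator, hS, mem_ofPred_eq, hx, true_and]
      rw [setIntegral_congr_fun measurableSet_Icc this, setIntegral_indicator hSm]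
      congr 2
      ext x
      constructor
      · rintro ⟨_, h2⟩
        exact h2
      · intro h2
        exact ⟨h2.1, h2⟩
    rw [e6]
    by_cases hne : S.Nonempty
    · set c := sInf S with hcdef
      have hbdd : BddBelow S := ⟨-1, fun x hx => hx.1.1⟩
      have hc1 : -1 ≤ c := le_csInf hne fun x hx => hx.1.1
      obtain ⟨s, hs⟩ := hne
      have hc2 : c ≤ 1 := (csInf_le hbdd hs).trans hs.1.2
      have hae : S =ᵐ[volume] Ioc c 1 := by
        have hsub1 : Ioc c 1 ⊆ S := by
          intro x hx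
          obtain ⟨s', hs', hs'x⟩ := exists_lt_of_csInf_lt ⟨s, hs⟩ hx.1
          exact ⟨⟨by linarith [hx.1], hx.2⟩, lt_of_lt_of_le hs'.2
            (hw hs'.1 ⟨by linarith [hx.1], hx.2⟩ hs'x.le)⟩
        have hsub2 : S ⊆ Icc c 1 := fun x hx => ⟨csInf_le hbdd hx, hx.1.2⟩
        have h3 : Ioc c 1 =ᵐ[volume] Icc c 1 := Ioc_ae_eq_Icc
        exact (Filter.EventuallyLE.antisymm (LE.le.eventuallyLE hsub2 |>.trans h3.symm.le)
          (LE.le.eventuallyLE hsub1))
      rw [setIntegral_congr_set hae, ← intervalIntegral.integral_of_le hc2]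
      exact hM c 1 hc1 hc2 le_rfl
    · rw [not_nonempty_iff_eq_empty.mp hne, Measure.restrict_empty, integral_zero_measure, norm_zero]
      exact hM0
  have e7 := norm_setIntegral_le_of_norm_le_const (μ := volume) (s := Icc (0 : ℝ) K)
    (f := fun y => ∫ x in Icc (-1 : ℝ) 1, Φ x y) (C := M) (by rw [Real.volume_Icc]; exact ENNReal.ofReal_lt_top)
    (fun y _ => e5 y)
  refine e7.trans (le_of_eq ?_)
  unfold Measure.real
  rw [Real.volume_Icc, sub_zero, ENNReal.toReal_ofReal hK0, mul_comm]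

/-- real amplitude of bounded variation -/
lemma bv_real (u : ℝ → ℝ) (V : ℝ) (hV0 : 0 ≤ V) (hV : eVariationOn u univ ≤ ENNReal.ofReal V)
    (hs : ∀ x, 1 < |x| → u x = 0) (h : ℝ → ℂ) (hc : Continuous h) (M : ℝ)
    (hM : ∀ a b : ℝ, -1 ≤ a → a ≤ b → b ≤ 1 → ‖∫ x in a..b, h x‖ ≤ M) :
    ‖∫ x in Icc (-1 : ℝ) 1, (u x : ℂ) * h x‖ ≤ 3 * V * M := by
  have hbv : LocallyBoundedVariationOn u univ := by
    have : BoundedVariationOn u univ := (lt_of_le_of_lt hV ENNReal.ofReal_lt_top).ne
    exact this.locallyBoundedVariationOn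
  set p : ℝ → ℝ := variationOnFromTo u univ (-2) with hp
  have hpm : MonotoneOn p univ := variationOnFromTo.monotoneOn hbv (mem_univ _)
  have hmm : MonotoneOn (p - u) univ := variationOnFromTo.sub_self_monotoneOn hbv (mem_univ _)
  have hp0 : ∀ x, -2 ≤ x → 0 ≤ p x := fun x hx => variationOnFromTo.nonneg_of_le u univ hx
  have hpV : ∀ x, -2 ≤ x → p x ≤ V := by
    intro x hx
    rw [hp, variationOnFromTo.eq_of_le u univ hx]
    have h1 : eVariationOn u (univ ∩ Icc (-2) x) ≤ ENNReal.ofReal V :=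
      (eVariationOn.mono u inter_subset_left).trans hV
    exact ENNReal.toReal_le_of_le_ofReal hV0 h1
  have hu2 : u (-2) = 0 := hs _ (by norm_num)
  have hub : ∀ x, |u x| ≤ V := by
    intro x
    have h1 := eVariationOn.edist_le u (mem_univ x) (mem_univ (-2 : ℝ))
    have h2 := h1.trans hV
    rw [edist_dist, hu2, Real.dist_eq, sub_zero] at h2
    exact (ENNReal.ofReal_le_ofReal_iff hV0).mp h2
  have hp2 : p (-2) = 0 := by
    rw [hp]
    exact variationOnFromTo.self u univ (-2)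
  have b1 := mono_bd p (hpm.mono (subset_univ _)) V (fun x hx => hp0 x (by linarith [hx.1]))
    (fun x hx => hpV x (by linarith [hx.1])) h hc M hM
  have b2 := mono_bd (p - u) (hmm.mono (subset_univ _)) (2 * V) (fun x hx => by
      have := hmm (mem_univ (-2 : ℝ)) (mem_univ x) (by linarith [hx.1])
      simp only [Pi.sub_apply] at this
      rw [hp2, hu2] at this
      simp only [Pi.sub_apply]
      linarith) (fun x hx => by
      have h1 := hpV x (by linarith [hx.1])
      have h2 := hub x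
      rw [abs_le] at h2
      simp only [Pi.sub_apply]
      linarith) h hc M hM
  have i1 : IntegrableOn (fun x => (p x : ℂ) * h x) (Icc (-1 : ℝ) 1) := by
    have h1 : IntegrableOn p (Icc (-1 : ℝ) 1) := (hpm.mono (subset_univ _)).integrableOn_isCompact isCompact_Icc
    have h2 : IntegrableOn (fun x => (p x : ℂ)) (Icc (-1 : ℝ) 1) := h1.ofReal
    exact h2.mul_continuousOn hc.continuousOn isCompact_Icc
  have i2 : IntegrableOn (fun x => ((p - u) x : ℂ) * h x) (Icc (-1 : ℝ) 1) := by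
    have h1 : IntegrableOn (p - u) (Icc (-1 : ℝ) 1) :=
      (hmm.mono (subset_univ _)).integrableOn_isCompact isCompact_Icc
    have h2 : IntegrableOn (fun x => ((p - u) x : ℂ)) (Icc (-1 : ℝ) 1) := h1.ofReal
    exact h2.mul_continuousOn hc.continuousOn isCompact_Icc
  have e : ∫ x in Icc (-1 : ℝ) 1, (u x : ℂ) * h x = (∫ x in Icc (-1 : ℝ) 1, (p x : ℂ) * h x) -
      ∫ x in Icc (-1 : ℝ) 1, ((p - u) x : ℂ) * h x := by
    rw [← integral_sub i1 i2]
    apply setIntegral_congr_fun measurableSet_Icc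
    intro x _
    simp only [Pi.sub_apply]
    push_cast
    ring
  rw [e]
  refine (norm_sub_le _ _).trans ?_
  linarith

/-- complex amplitude of bounded variation -/
lemma bv (G : ℝ → ℂ) (V : ℝ) (hV0 : 0 ≤ V) (hV : eVariationOn G univ ≤ ENNReal.ofReal V)
    (hs : ∀ x, 1 < |x| → G x = 0) (h : ℝ → ℂ) (hc : Continuous h) (M : ℝ)
    (hM : ∀ a b : ℝ, -1 ≤ a → a ≤ b → b ≤ 1 → ‖∫ x in a..b, h x‖ ≤ M) :
    ‖∫ x in Icc (-1 : ℝ) 1, G x * h x‖ ≤ 6 * V * M := by
  have hre : eVariationOn (fun x => (G x).re) univ ≤ ENNReal.ofReal V := by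
    refine le_trans ?_ hV
    have h1 : LipschitzWith 1 Complex.re := by
      apply LipschitzWith.of_dist_le_mul
      intro x y
      rw [Real.dist_eq, NNReal.coe_one, one_mul, dist_eq_norm, ← Complex.sub_re]
      exact Complex.abs_re_le_norm _
    have h2 := h1.lipschitzOnWith.comp_eVariationOn_le (s := (univ : Set ℝ)) (g := G) (mapsTo_univ _ univ)
    rw [ENNReal.coe_one, one_mul] at h2
    exact h2
  have him : eVariationOn (fun x => (G x).im) univ ≤ ENNReal.ofReal V := by
    refine le_trans ?_ hV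
    have h1 : LipschitzWith 1 Complex.im := by
      apply LipschitzWith.of_dist_le_mul
      intro x y
      rw [Real.dist_eq, NNReal.coe_one, one_mul, dist_eq_norm, ← Complex.sub_im]
      exact Complex.abs_im_le_norm _
    have h2 := h1.lipschitzOnWith.comp_eVariationOn_le (s := (univ : Set ℝ)) (g := G) (mapsTo_univ _ univ)
    rw [ENNReal.coe_one, one_mul] at h2
    exact h2
  have b1 := bv_real (fun x => (G x).re) V hV0 hre (fun x hx => by simp only [hs x hx, zero_re]) h hc M hM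
  have b2 := bv_real (fun x => (G x).im) V hV0 him (fun x hx => by simp only [hs x hx, zero_im]) h hc M hM
  have key : ∀ u : ℝ → ℝ, eVariationOn u univ ≤ ENNReal.ofReal V →
      IntegrableOn (fun x => (u x : ℂ) * h x) (Icc (-1 : ℝ) 1) := by
    intro u hu
    have hbv : BoundedVariationOn u univ := (lt_of_le_of_lt hu ENNReal.ofReal_lt_top).ne
    obtain ⟨p, q, hp, hq, rfl⟩ := hbv.locallyBoundedVariationOn.exists_monotoneOn_sub_monotoneOn
    have h1 : IntegrableOn p (Icc (-1 : ℝ) 1) := (hp.mono (subset_univ _)).integrableOn_isCompact isCompact_Icc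
    have h2 : IntegrableOn q (Icc (-1 : ℝ) 1) := (hq.mono (subset_univ _)).integrableOn_isCompact isCompact_Icc
    have h3 : IntegrableOn (fun x => ((p - q) x : ℂ)) (Icc (-1 : ℝ) 1) := (h1.sub h2).ofReal
    exact h3.mul_continuousOn hc.continuousOn isCompact_Icc
  have e : ∫ x in Icc (-1 : ℝ) 1, G x * h x = (∫ x in Icc (-1 : ℝ) 1, ((G x).re : ℂ) * h x) +
      I * ∫ x in Icc (-1 : ℝ) 1, ((G x).im : ℂ) * h x := by
    rw [← integral_const_mul, ← integral_add (key _ hre) ((key _ him).const_mul I)]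
    apply setIntegral_congr_fun measurableSet_Icc
    intro x _
    simp only
    conv_lhs => rw [← Complex.re_add_im (G x)]
    ring
  rw [e]
  refine (norm_add_le _ _).trans ?_
  rw [norm_mul, Complex.norm_I, one_mul]
  linarith

/-- quadratic phase -/
noncomputable def qp (β p x : ℝ) : ℂ := cexp (((β * x ^ 2 + p * x : ℝ) : ℂ) * I)

lemma qp_cont (β p : ℝ) : Continuous (qp β p) := by unfold qp; fun_prop

lemma qp_norm (β p x : ℝ) : ‖qp β p x‖ = 1 := Complex.norm_exp_ofReal_mul_I _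

lemma qp_triv (β p a b : ℝ) (ha : -1 ≤ a) (hab : a ≤ b) (hb : b ≤ 1) : ‖∫ x in a..b, qp β p x‖ ≤ 2 := by
  have h := intervalIntegral.norm_integral_le_of_norm_le_const (a := a) (b := b) (C := 1)
    (f := qp β p) (fun x _ => (qp_norm β p x).le)
  rw [abs_of_nonneg (by linarith), one_mul] at h
  linarith

lemma qp_fr (β p a b : ℝ) (hβ : β ≠ 0) :
    ‖∫ x in a..b, qp β p x‖ = ‖Pool.Agent.H728R3.SR.fr β (a + p / (2 * β)) (b + p / (2 * β))‖ := by
  have e1 : ∫ x in a..b, qp β p x =
      cexp (((-(p ^ 2 / (4 * β)) : ℝ) : ℂ) * I) *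
        Pool.Agent.H728R3.SR.fr β (a + p / (2 * β)) (b + p / (2 * β)) := by
    unfold Pool.Agent.H728R3.SR.fr qp
    rw [← intervalIntegral.integral_comp_add_right, ← intervalIntegral.integral_const_mul]
    apply intervalIntegral.integral_congr
    intro y _
    simp only
    rw [← Complex.exp_add]
    congr 1
    have : β * y ^ 2 + p * y = β * (y + p / (2 * β)) ^ 2 - p ^ 2 / (4 * β) := by
      field_simp
      ring
    rw [this]
    push_cast
    ring
  rw [e1, norm_mul, Complex.norm_exp_ofReal_mul_I, one_mul]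

lemma qp_second (β p a b : ℝ) (hβ : β ≠ 0) (hab : a ≤ b) :
    ‖∫ x in a..b, qp β p x‖ ≤ 4 * (Real.sqrt |β|)⁻¹ := by
  rw [qp_fr β p a b hβ]
  set a' := a + p / (2 * β)
  set b' := b + p / (2 * β)
  have hab' : a' ≤ b' := by simp only [a', b']; linarith
  have hs : 0 ≤ (Real.sqrt |β|)⁻¹ := by positivity
  rcases le_or_gt 0 a' with h | h
  · have := Pool.Agent.H728R3.SR.fr_unif β a' b' hβ h hab'
    linarith
  · rcases le_or_gt b' 0 with h1 | h1
    · have h2 := Pool.Agent.H728R3.SR.fr_unif β (-b') (-a') hβ (by linarith) (by linarith)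
      rw [Pool.Agent.H728R3.SR.fr_neg] at h2
      linarith
    · have h2 := Pool.Agent.H728R3.SR.fr_unif β 0 b' hβ le_rfl h1.le
      have h3 := Pool.Agent.H728R3.SR.fr_unif β (-0) (-a') hβ (by norm_num) (by linarith)
      rw [Pool.Agent.H728R3.SR.fr_neg] at h3
      have h4 := norm_add_le (Pool.Agent.H728R3.SR.fr β a' 0) (Pool.Agent.H728R3.SR.fr β 0 b')
      rw [Pool.Agent.H728R3.SR.fr_add] at h4
      linarith

lemma qp_first (β p a b : ℝ) (hp : p ≠ 0) (hβp : 4 * |β| ≤ |p|) (ha : -1 ≤ a) (hab : a ≤ b) (hb : b ≤ 1) :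
    ‖∫ x in a..b, qp β p x‖ ≤ 4 * |p|⁻¹ := by
  have hp' : 0 < |p| := abs_pos.2 hp
  by_cases hβ : β = 0
  · subst hβ
    have e1 : ∀ x : ℝ, qp 0 p x = cexp ((p * I) * x) := by
      intro x
      unfold qp
      congr 1
      push_cast
      ring
    have hpI : (p : ℂ) * I ≠ 0 := mul_ne_zero (by exact_mod_cast hp) I_ne_zero
    simp only [e1]
    rw [integral_exp_mul_complex hpI, norm_div, norm_mul, Complex.norm_I, mul_one, Complex.norm_real,
      Real.norm_eq_abs, div_eq_mul_inv]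
    have h1 : ‖cexp (p * I * b) - cexp (p * I * a)‖ ≤ 2 := by
      refine (norm_sub_le _ _).trans ?_
      have h2 : ∀ y : ℝ, ‖cexp (p * I * y)‖ = 1 := by
        intro y
        rw [show (p : ℂ) * I * y = ((p * y : ℝ) : ℂ) * I by push_cast; ring, Complex.norm_exp_ofReal_mul_I]
      rw [h2, h2]
      norm_num
    gcongr
    linarith
  · have hβ' : 0 < |β| := abs_pos.2 hβ
    rw [qp_fr β p a b hβ]
    set s := p / (2 * β) with hs
    have hsabs : |β| * |s| = |p| / 2 := by
      rw [hs, abs_div, abs_mul]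
      have : |(2 : ℝ)| = 2 := by norm_num
      rw [this]
      field_simp
    have hs2 : 2 ≤ |s| := by
      by_contra hc
      push Not at hc
      nlinarith
    have key : ∀ c d : ℝ, |s| / 2 ≤ c → c ≤ d → ‖Pool.Agent.H728R3.SR.fr β c d‖ ≤ 4 * |p|⁻¹ := by
      intro c d hc hcd
      have hc0 : 0 < c := by linarith
      refine (Pool.Agent.H728R3.SR.fr_ibp β c d hβ hc0 hcd).trans ?_
      rw [one_div, ← div_eq_mul_inv, inv_le_comm₀ (by positivity) (by positivity), inv_div,
        div_le_iff₀ (by norm_num)]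
      nlinarith
    rcases le_or_gt 0 s with h | h
    · rw [abs_of_nonneg h] at hs2 key
      exact key _ _ (by linarith) (by linarith)
    · rw [abs_of_neg h] at hs2 key
      rw [← Pool.Agent.H728R3.SR.fr_neg]
      exact key _ _ (by linarith) (by linarith)

/-- all the bounds together -/
theorem osc (G : ℝ → ℂ) (V : ℝ) (hV0 : 0 ≤ V) (hV : eVariationOn G univ ≤ ENNReal.ofReal V)
    (hs : ∀ x, 1 < |x| → G x = 0) (β p : ℝ) :
    ‖∫ x in Icc (-1 : ℝ) 1, G x * qp β p x‖ ≤ 12 * V ∧
    (β ≠ 0 → ‖∫ x in Icc (-1 : ℝ) 1, G x * qp β p x‖ ≤ 24 * V * (Real.sqrt |β|)⁻¹) ∧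
    (p ≠ 0 → 4 * |β| ≤ |p| → ‖∫ x in Icc (-1 : ℝ) 1, G x * qp β p x‖ ≤ 24 * V * |p|⁻¹) := by
  refine ⟨?_, ?_, ?_⟩
  · have := bv G V hV0 hV hs (qp β p) (qp_cont β p) 2 (fun a b ha hab hb => qp_triv β p a b ha hab hb)
    linarith
  · intro hβ
    have := bv G V hV0 hV hs (qp β p) (qp_cont β p) (4 * (Real.sqrt |β|)⁻¹)
      (fun a b ha hab hb => qp_second β p a b hβ hab)
    linarith
  · intro hp hβp
    have := bv G V hV0 hV hs (qp β p) (qp_cont β p) (4 * |p|⁻¹)
      (fun a b ha hab hb => qp_first β p a b hp hβp ha hab hb)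
    linarith

end Pool.Agent.Y250.CT
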