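import Mathlib
import Pool.Agent.Y250.CT.A1
import Pool.Agent.Y250.CT.A2
set_option autoImplicit false

/-! Functions of bounded variation on lines; cubic phases. -/

namespace Pool.Agent.Y250.CT

open MeasureTheory Set Complex Filter Topology
open scoped ENNReal NNReal ComplexConjugate

/-- variation of a product -/
lemma var_mul (u v : ℝ → ℂ) (B : ℝ) (hB : 0 ≤ B) (hu : ∀ x, ‖u x‖ ≤ B) (hv : ∀ x, ‖v x‖ ≤ B) :
    eVariationOn (fun x => u x * v x) univ ≤
      ENNReal.ofReal B * (eVariationOn u univ + eVariationOn v univ) := by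
  unfold eVariationOn
  apply iSup_le
  rintro ⟨n, s, hs, hs'⟩
  have h1 : ∀ i, edist (u (s (i + 1)) * v (s (i + 1))) (u (s i) * v (s i)) ≤
      ENNReal.ofReal B * (edist (u (s (i + 1))) (u (s i)) + edist (v (s (i + 1))) (v (s i))) := by
    intro i
    rw [edist_dist, edist_dist, edist_dist, dist_eq_norm, dist_eq_norm, dist_eq_norm,
      ← ENNReal.ofReal_add (norm_nonneg _) (norm_nonneg _), ← ENNReal.ofReal_mul hB]
    apply ENNReal.ofReal_le_ofReal
    have e : u (s (i + 1)) * v (s (i + 1)) - u (s i) * v (s i) =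
        (u (s (i + 1)) - u (s i)) * v (s (i + 1)) + u (s i) * (v (s (i + 1)) - v (s i)) := by ring
    rw [e]
    refine (norm_add_le _ _).trans ?_
    rw [norm_mul, norm_mul]
    have a1 := mul_le_mul_of_nonneg_left (hv (s (i + 1))) (norm_nonneg (u (s (i + 1)) - u (s i)))
    have a2 := mul_le_mul_of_nonneg_right (hu (s i)) (norm_nonneg (v (s (i + 1)) - v (s i)))
    linarith
  calc ∑ i ∈ Finset.range n, edist (u (s (i + 1)) * v (s (i + 1))) (u (s i) * v (s i))
      ≤ ∑ i ∈ Finset.range n, ENNReal.ofReal B *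
          (edist (u (s (i + 1))) (u (s i)) + edist (v (s (i + 1))) (v (s i))) :=
        Finset.sum_le_sum fun i _ => h1 i
    _ = ENNReal.ofReal B * (∑ i ∈ Finset.range n, edist (u (s (i + 1))) (u (s i)) +
          ∑ i ∈ Finset.range n, edist (v (s (i + 1))) (v (s i))) := by
        rw [← Finset.mul_sum, Finset.sum_add_distrib]
    _ ≤ _ := by
        gcongr
        · exact eVariationOn.sum_le hs hs'
        · exact eVariationOn.sum_le hs hs'

/-- measurable functions supported in the disc of radius `1/2`, with variation at most `V` on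
every line -/
structure LV (g : ℂ → ℂ) (V : ℝ) : Prop where
  meas : Measurable g
  nonneg : 0 ≤ V
  supp : ∀ ξ, 1 / 2 < ‖ξ‖ → g ξ = 0
  var : ∀ z w : ℂ, eVariationOn (fun s : ℝ => g (z + s * w)) univ ≤ ENNReal.ofReal V

lemma LV.bd {g : ℂ → ℂ} {V : ℝ} (h : LV g V) (ξ : ℂ) : ‖g ξ‖ ≤ V := by
  have h1 := eVariationOn.edist_le (fun s : ℝ => g (ξ + s * 1)) (mem_univ (0 : ℝ))
    (mem_univ (‖ξ‖ + 1))
  have h2 := h1.trans (h.var ξ 1)
  have h3 : g (ξ + ((‖ξ‖ + 1 : ℝ) : ℂ) * 1) = 0 := by
    apply h.supp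
    have h4 : ‖((‖ξ‖ + 1 : ℝ) : ℂ)‖ = ‖ξ‖ + 1 := by
      rw [Complex.norm_real, Real.norm_eq_abs, abs_of_nonneg (by positivity)]
    have h5 := norm_sub_norm_le (((‖ξ‖ + 1 : ℝ) : ℂ)) (-ξ)
    rw [norm_neg, h4, sub_neg_eq_add] at h5
    rw [mul_one, add_comm ξ]
    linarith
  simp only [h3] at h2
  rw [ofReal_zero, zero_mul, add_zero, edist_dist, dist_zero_right] at h2
  exact (ENNReal.ofReal_le_ofReal_iff h.nonneg).mp h2

lemma LV.adm {g : ℂ → ℂ} {V : ℝ} (h : LV g V) : Adm g V where
  meas := h.meas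
  bd := h.bd
  supp := h.supp

lemma LV.prod {g : ℂ → ℂ} {V : ℝ} (h : LV g V) (z w l : ℂ) :
    eVariationOn (fun s : ℝ => g (z + s * w + l) * conj (g (z + s * w))) univ ≤
      ENNReal.ofReal (2 * V ^ 2) := by
  have h1 := var_mul (fun s : ℝ => g (z + s * w + l)) (fun s : ℝ => conj (g (z + s * w))) V h.nonneg
    (fun x => h.bd _) (fun x => by rw [RCLike.norm_conj]; exact h.bd _)
  refine h1.trans ?_
  have h2 : eVariationOn (fun s : ℝ => g (z + s * w + l)) univ ≤ ENNReal.ofReal V := by
    have := h.var (z + l) w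
    have e : (fun s : ℝ => g (z + s * w + l)) = fun s : ℝ => g (z + l + s * w) := by
      ext s
      congr 1
      ring
    rw [e]
    exact this
  have h3 : eVariationOn (fun s : ℝ => conj (g (z + s * w))) univ ≤ ENNReal.ofReal V := by
    refine le_trans ?_ (h.var z w)
    have e : (fun s : ℝ => conj (g (z + s * w))) = (fun x => conj x) ∘ fun s : ℝ => g (z + s * w) := rfl
    rw [e]
    have h4 : LipschitzWith 1 (fun x : ℂ => conj x) := by
      apply LipschitzWith.of_dist_le_mul
      intro x y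
      rw [NNReal.coe_one, one_mul, dist_eq_norm, dist_eq_norm, ← map_sub, RCLike.norm_conj]
    have h5 := h4.lipschitzOnWith.comp_eVariationOn_le (s := (univ : Set ℝ))
      (g := fun s : ℝ => g (z + s * w)) (mapsTo_univ _ univ)
    rw [ENNReal.coe_one, one_mul] at h5
    exact h5
  calc ENNReal.ofReal V * (eVariationOn (fun s : ℝ => g (z + s * w + l)) univ +
        eVariationOn (fun s : ℝ => conj (g (z + s * w))) univ)
      ≤ ENNReal.ofReal V * (ENNReal.ofReal V + ENNReal.ofReal V) := by gcongr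
    _ = _ := by
        rw [← ENNReal.ofReal_add h.nonneg h.nonneg, ← ENNReal.ofReal_mul h.nonneg]
        congr 1
        ring

/-- cubic polynomials in complex form -/
noncomputable def cub (a b c e : ℂ) (d : ℝ) (z : ℂ) : ℝ :=
  (a * z ^ 3 + b * z ^ 2 * conj z + c / 2 * z ^ 2 + e * z).re + d / 2 * ‖z‖ ^ 2

lemma nsq (z : ℂ) : ‖z‖ ^ 2 = z.re ^ 2 + z.im ^ 2 := by
  rw [← Complex.normSq_eq_norm_sq, Complex.normSq_apply]
  ring

lemma cub_cont (a b c e : ℂ) (d : ℝ) : Continuous (cub a b c e d) := by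
  unfold cub
  apply Continuous.add
  · apply Complex.continuous_re.comp
    have : Continuous fun z : ℂ => conj z := Complex.continuous_conj
    fun_prop
  · fun_prop

/-- the linear coefficient -/
noncomputable def wc (a b c : ℂ) (d : ℝ) (l : ℂ) : ℂ :=
  3 * a * l ^ 2 + 2 * b * l * conj l + conj b * conj l ^ 2 + c * l + d * conj l

lemma cub_diff (a b c e : ℂ) (d : ℝ) (m l : ℂ) :
    cub a b c e d (m + l) - cub a b c e d m =
      ((3 * a * l + b * conj l) * m ^ 2).re + 2 * (b * l).re * ‖m‖ ^ 2 + (wc a b c d l * m).re +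
        cub a b c e d l := by
  unfold cub wc
  rw [nsq, nsq, nsq]
  have e2 : (c / 2 : ℂ) = ((1 / 2 : ℝ) : ℂ) * c := by push_cast; ring
  rw [e2]
  simp only [pow_succ, pow_zero, one_mul, Complex.add_re, Complex.mul_re, Complex.mul_im, Complex.add_im,
    Complex.conj_re, Complex.conj_im, Complex.ofReal_re, Complex.ofReal_im, map_add]
  have h3r : (3 : ℂ).re = 3 := rfl
  have h3i : (3 : ℂ).im = 0 := rfl
  have h2r : (2 : ℂ).re = 2 := rfl
  have h2i : (2 : ℂ).im = 0 := rfl
  rw [h3r, h3i, h2r, h2i]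
  ring

/-- the density -/
noncomputable def dens (a b c e : ℂ) (d : ℝ) (g : ℂ → ℂ) (ξ : ℂ) : ℂ := ee (cub a b c e d ξ) * g ξ

lemma dens_adm (a b c e : ℂ) (d : ℝ) {g : ℂ → ℂ} {V : ℝ} (h : LV g V) : Adm (dens a b c e d g) V where
  meas := (ee_cont.comp (cub_cont a b c e d)).measurable.mul h.meas
  bd := fun ξ => by
    unfold dens
    rw [norm_mul, norm_ee, one_mul]
    exact h.bd ξ
  supp := fun ξ hξ => by
    unfold dens
    rw [h.supp ξ hξ, mul_zero]

lemma ft_dens (a b c e : ℂ) (d : ℝ) (g : ℂ → ℂ) (t : ℝ) :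
    ft (dens a b c e d g) t = dens a b c e (d - 2 * t) g := by
  ext ξ
  unfold ft dens
  rw [← mul_assoc, ← ee_add]
  congr 2
  unfold cub
  ring

lemma ac_dens (a b c e : ℂ) (d : ℝ) (g : ℂ → ℂ) (l : ℂ) :
    ac (dens a b c e d g) l = ee (cub a b c e d l) * ∫ m, ee (((3 * a * l + b * conj l) * m ^ 2).re +
      2 * (b * l).re * ‖m‖ ^ 2 + (wc a b c d l * m).re) * (g (m + l) * conj (g m)) := by
  unfold ac
  rw [← integral_const_mul]
  apply integral_congr_ae
  refine ae_of_all _ fun m => ?_
  simp only [dens, map_mul, ee_conj]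
  have h := cub_diff a b c e d m l
  calc ee (cub a b c e d (m + l)) * g (m + l) * (ee (-cub a b c e d m) * conj (g m))
      = ee (cub a b c e d (m + l) - cub a b c e d m) * (g (m + l) * conj (g m)) := by
        rw [sub_eq_add_neg, ee_add]; ring
    _ = _ := by
        rw [h, add_comm _ (cub a b c e d l), ee_add]
        ring

lemma rot_mp (w : ℂ) (hw : ‖w‖ = 1) : MeasurePreserving (fun z : ℂ => w * z) volume volume := by
  have hmem : w ∈ Submonoid.unitSphere ℂ := by
    rw [Submonoid.unitSphere]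
    simpa using hw
  set U : Circle := ⟨w, hmem⟩ with hU
  have h1 : MeasurePreserving (rotation U) volume volume := (rotation U).measurePreserving
  exact h1

/-- slicing in a rotated frame -/
lemma slice (H : ℂ → ℂ) (hH : Integrable H) (w : ℂ) (hw : ‖w‖ = 1) :
    ∫ m, H m = ∫ s : ℝ, ∫ τ : ℝ, H (w * (s + τ * I)) := by
  have hw0 : w ≠ 0 := by
    intro h
    rw [h, norm_zero] at hw
    norm_num at hw
  have hemb : MeasurableEmbedding (fun z : ℂ => w * z) :=
    (Homeomorph.mulLeft₀ w hw0).measurableEmbedding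
  have h1 := (rot_mp w hw).integral_comp hemb H
  have h2 : Integrable fun z : ℂ => H (w * z) := (rot_mp w hw).integrable_comp_of_integrable hH
  rw [← h1]
  have h3 := Complex.volume_preserving_equiv_real_prod.symm
  have h4 := h3.integral_comp' (f := Complex.measurableEquivRealProd.symm) (fun z => H (w * z))
  rw [← h4, Measure.volume_eq_prod, integral_prod]
  · apply integral_congr_ae
    refine ae_of_all _ fun s => ?_
    apply integral_congr_ae
    refine ae_of_all _ fun τ => ?_
    simp only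
    congr 2
    apply Complex.ext <;> simp [Complex.measurableEquivRealProd_symm_apply]
  · exact h3.integrable_comp_of_integrable h2

lemma lslice (H : ℂ → ℝ≥0∞) (hH : Measurable H) (w : ℂ) (hw : ‖w‖ = 1) :
    ∫⁻ m, H m = ∫⁻ s : ℝ, ∫⁻ τ : ℝ, H (w * (s + τ * I)) := by
  have hw0 : w ≠ 0 := by
    intro h
    rw [h, norm_zero] at hw
    norm_num at hw
  have hemb : MeasurableEmbedding (fun z : ℂ => w * z) :=
    (Homeomorph.mulLeft₀ w hw0).measurableEmbedding
  have h1 := (rot_mp w hw).lintegral_comp_emb hemb H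
  rw [← h1]
  have h3 := Complex.volume_preserving_equiv_real_prod.symm
  have h4 := h3.lintegral_comp_emb Complex.measurableEquivRealProd.symm.measurableEmbedding
    (fun z => H (w * z))
  rw [← h4, Measure.volume_eq_prod, lintegral_prod]
  · apply lintegral_congr
    intro s
    apply lintegral_congr
    intro τ
    congr 2
    apply Complex.ext <;> simp [Complex.measurableEquivRealProd_symm_apply]
  · have : Measurable fun z : ℂ => H (w * z) := hH.comp (measurable_const_mul w)
    exact (this.comp Complex.measurableEquivRealProd.symm.measurable).aemeasurable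

end Pool.Agent.Y250.CT
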