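import Mathlib
import Pool.Agent.Y250.CT.A3
set_option autoImplicit false

/-! The autocorrelation at one frequency, integrated over all times. -/

namespace Pool.Agent.Y250.CT

open MeasureTheory Set Complex Filter Topology
open scoped ENNReal NNReal ComplexConjugate FourierTransform

lemma lint_mul (r : ℝ) (hr : r ≠ 0) (F : ℝ → ℝ≥0∞) (hF : Measurable F) :
    ∫⁻ t : ℝ, F (r * t) = ENNReal.ofReal |r⁻¹| * ∫⁻ t, F t := by
  have h := Real.map_volume_mul_left hr
  have h2 := lintegral_map (μ := (volume : Measure ℝ)) hF (measurable_const_mul r)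
  rw [← h2, h, lintegral_smul_measure, smul_eq_mul]

lemma lint_affine (r w : ℝ) (hr : r ≠ 0) (F : ℝ → ℝ≥0∞) (hF : Measurable F) :
    ∫⁻ t : ℝ, F (r * t + w) = ENNReal.ofReal |r⁻¹| * ∫⁻ t, F t := by
  rw [lint_mul r hr (fun t => F (t + w)) (hF.comp (measurable_add_const w))]
  congr 1
  exact lintegral_add_right_eq_self F w

lemma lint_cauchy : ∫⁻ x : ℝ, ENNReal.ofReal ((1 + x ^ 2)⁻¹) = ENNReal.ofReal Real.pi := by
  rw [← ofReal_integral_eq_lintegral_ofReal integrable_inv_one_add_sq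
    (ae_of_all _ fun x => by positivity), integral_univ_inv_one_add_sq]

/-- one dimensional Plancherel -/
lemma planch1 (J : ℝ → ℂ) (h1 : Integrable J) (h2 : MemLp J 2) (r : ℝ) (hr : 0 < r) :
    ∫⁻ t : ℝ, ‖∫ s : ℝ, ee (-(2 * t * r * s)) * J s‖ₑ ^ 2 =
      ENNReal.ofReal (Real.pi / r) * ∫⁻ s, ‖J s‖ₑ ^ 2 := by
  have hpi := Real.pi_pos
  have e1 : ∀ t : ℝ, ∫ s : ℝ, ee (-(2 * t * r * s)) * J s = 𝓕 J ((r / Real.pi) * t) := by
    intro t
    rw [Real.fourier_eq']
    apply integral_congr_ae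
    refine ae_of_all _ fun s => ?_
    simp only [smul_eq_mul]
    congr 1
    unfold ee
    congr 1
    simp only [RCLike.inner_apply, conj_trivial]
    have hpi' : (Real.pi : ℂ) ≠ 0 := by exact_mod_cast hpi.ne'
    push_cast
    field_simp
  have hcont : Continuous (𝓕 J) := by
    have := VectorFourier.fourierIntegral_continuous (L := innerₗ ℝ) Real.continuous_fourierChar
      continuous_inner h1
    exact this
  simp only [e1]
  rw [lint_mul (r / Real.pi) (by positivity) (fun y => ‖𝓕 J y‖ₑ ^ 2) (by fun_prop),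
    Pool.Agent.H153R4.plancherel J h1 h2]
  congr 2
  rw [abs_of_nonneg (by positivity), inv_div]

/-- `L^2` norm of a family of oscillatory integrals -/
lemma lineL2 (J : ℝ → ℂ) (W α β w : ℝ) (_hW : 0 ≤ W) (hJ1 : ∀ s, ‖J s‖ ≤ W)
    (hJ2 : β ≠ 0 → ∀ s, ‖J s‖ ≤ W * (Real.sqrt |β|)⁻¹)
    (hJ3 : ∀ s, 2 * α * s + w ≠ 0 → 4 * |β| ≤ |2 * α * s + w| → ‖J s‖ ≤ W * |2 * α * s + w|⁻¹)
    (hJs : ∀ s, 1 / 2 < |s| → J s = 0) :
    ∫⁻ s, ‖J s‖ₑ ^ 2 ≤ ENNReal.ofReal (W ^ 2) ∧
    (β ≠ 0 → ∫⁻ s, ‖J s‖ₑ ^ 2 ≤ ENNReal.ofReal (W ^ 2 * |β|⁻¹)) ∧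
    (α ≠ 0 → ∫⁻ s, ‖J s‖ₑ ^ 2 ≤ ENNReal.ofReal (8 * W ^ 2 * |α|⁻¹)) := by
  have gen : ∀ M : ℝ, 0 ≤ M → (∀ s, ‖J s‖ ^ 2 ≤ M) → ∫⁻ s, ‖J s‖ₑ ^ 2 ≤ ENNReal.ofReal M := by
    intro M hM h
    calc ∫⁻ s, ‖J s‖ₑ ^ 2 ≤ ∫⁻ s, (Icc (-(1 / 2) : ℝ) (1 / 2)).indicator (fun _ => ENNReal.ofReal M) s := by
          apply lintegral_mono
          intro s
          simp only
          by_cases hs : s ∈ Icc (-(1 / 2) : ℝ) (1 / 2)
          · rw [indicator_of_mem hs, ← ofReal_norm, ← ENNReal.ofReal_pow (norm_nonneg _)]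
            exact ENNReal.ofReal_le_ofReal (h s)
          · have : J s = 0 := by
              apply hJs
              by_contra hc
              push Not at hc
              exact hs (abs_le.mp hc)
            rw [indicator_of_notMem hs, this]
            simp
      _ = _ := by
          rw [lintegral_indicator measurableSet_Icc, setLIntegral_const, Real.volume_Icc]
          norm_num
  refine ⟨?_, ?_, ?_⟩
  · apply gen _ (by positivity)
    intro s
    exact pow_le_pow_left₀ (norm_nonneg _) (hJ1 s) 2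
  · intro hβ
    have hb : 0 < |β| := abs_pos.2 hβ
    apply gen _ (by positivity)
    intro s
    calc ‖J s‖ ^ 2 ≤ (W * (Real.sqrt |β|)⁻¹) ^ 2 := pow_le_pow_left₀ (norm_nonneg _) (hJ2 hβ s) 2
      _ = W ^ 2 * |β|⁻¹ := by
          rw [mul_pow, inv_pow, Real.sq_sqrt hb.le]
  · intro hα
    have ha : 0 < |α| := abs_pos.2 hα
    set E : Set ℝ := {s | |2 * α * s + w| < 4 * |β|} with hE
    have hEm : MeasurableSet E := measurableSet_lt (by fun_prop) measurable_const
    have hpt : ∀ s, ‖J s‖ₑ ^ 2 ≤ E.indicator (fun _ => ENNReal.ofReal (W ^ 2 * |β|⁻¹)) s +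
        ENNReal.ofReal (2 * W ^ 2) * ENNReal.ofReal ((1 + (2 * α * s + w) ^ 2)⁻¹) := by
      intro s
      by_cases hs : s ∈ E
      · rw [indicator_of_mem hs]
        have hb : 0 < |β| := by
          have h1 : |2 * α * s + w| < 4 * |β| := hs
          have h2 := abs_nonneg (2 * α * s + w)
          linarith
        have hβ : β ≠ 0 := abs_pos.1 hb
        refine le_trans ?_ le_self_add
        rw [← ofReal_norm, ← ENNReal.ofReal_pow (norm_nonneg _)]
        apply ENNReal.ofReal_le_ofReal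
        calc ‖J s‖ ^ 2 ≤ (W * (Real.sqrt |β|)⁻¹) ^ 2 := pow_le_pow_left₀ (norm_nonneg _) (hJ2 hβ s) 2
          _ = W ^ 2 * |β|⁻¹ := by
              rw [mul_pow, inv_pow, Real.sq_sqrt hb.le]
      · rw [indicator_of_notMem hs, zero_add, ← ENNReal.ofReal_mul (by positivity), ← ofReal_norm,
          ← ENNReal.ofReal_pow (norm_nonneg _)]
        apply ENNReal.ofReal_le_ofReal
        have hs' : 4 * |β| ≤ |2 * α * s + w| := by
          by_contra hc
          push Not at hc
          exact hs hc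
        set P := 2 * α * s + w with hP
        have h1 : ‖J s‖ ^ 2 ≤ W ^ 2 := pow_le_pow_left₀ (norm_nonneg _) (hJ1 s) 2
        have h2 : ‖J s‖ ^ 2 * P ^ 2 ≤ W ^ 2 := by
          by_cases hP0 : P = 0
          · rw [hP0]
            nlinarith [sq_nonneg W]
          · have h3 := hJ3 s hP0 hs'
            have h4 : 0 < |P| := abs_pos.2 hP0
            calc ‖J s‖ ^ 2 * P ^ 2 ≤ (W * |P|⁻¹) ^ 2 * P ^ 2 := by
                  gcongr
              _ = W ^ 2 := by
                  rw [mul_pow, inv_pow, sq_abs]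
                  have : P ^ 2 ≠ 0 := pow_ne_zero 2 hP0
                  field_simp
        rw [← div_eq_mul_inv, le_div_iff₀ (by positivity)]
        nlinarith
    have hvol : volume E ≤ ENNReal.ofReal (4 * |β| / |α|) := by
      have hsub : E ⊆ Icc (-w / (2 * α) - 2 * |β| / |α|) (-w / (2 * α) + 2 * |β| / |α|) := by
        intro s hs
        have h1 : |2 * α * s + w| < 4 * |β| := hs
        have h2 : |s - (-w / (2 * α))| ≤ 2 * |β| / |α| := by
          have e : s - (-w / (2 * α)) = (2 * α * s + w) / (2 * α) := by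
            field_simp
            ring
          rw [e, abs_div, abs_mul, show |(2 : ℝ)| = 2 by norm_num, div_le_div_iff₀ (by positivity) ha]
          nlinarith
        rw [abs_le] at h2
        exact ⟨by linarith [h2.1], by linarith [h2.2]⟩
      refine (measure_mono hsub).trans ?_
      rw [Real.volume_Icc]
      apply ENNReal.ofReal_le_ofReal
      ring_nf
      exact le_rfl
    calc ∫⁻ s, ‖J s‖ₑ ^ 2 ≤ ∫⁻ s, (E.indicator (fun _ => ENNReal.ofReal (W ^ 2 * |β|⁻¹)) s +
          ENNReal.ofReal (2 * W ^ 2) * ENNReal.ofReal ((1 + (2 * α * s + w) ^ 2)⁻¹)) := lintegral_mono hpt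
      _ = ENNReal.ofReal (W ^ 2 * |β|⁻¹) * volume E + ENNReal.ofReal (2 * W ^ 2) *
            (ENNReal.ofReal |(2 * α)⁻¹| * ENNReal.ofReal Real.pi) := by
          rw [lintegral_add_left (measurable_const.indicator hEm), lintegral_indicator hEm,
            setLIntegral_const, lintegral_const_mul _ (by fun_prop),
            lint_affine (2 * α) w (by positivity) (fun x => ENNReal.ofReal ((1 + x ^ 2)⁻¹)) (by fun_prop),
            lint_cauchy]
      _ ≤ ENNReal.ofReal (W ^ 2 * |β|⁻¹) * ENNReal.ofReal (4 * |β| / |α|) + ENNReal.ofReal (2 * W ^ 2) *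
            (ENNReal.ofReal |(2 * α)⁻¹| * ENNReal.ofReal Real.pi) := by gcongr
      _ ≤ ENNReal.ofReal (4 * W ^ 2 * |α|⁻¹) + ENNReal.ofReal (4 * W ^ 2 * |α|⁻¹) := by
          apply add_le_add
          · rw [← ENNReal.ofReal_mul (by positivity)]
            apply ENNReal.ofReal_le_ofReal
            by_cases hβ : β = 0
            · rw [hβ]
              simp
              positivity
            · have hb : 0 < |β| := abs_pos.2 hβ
              apply le_of_eq
              field_simp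
          · rw [← ENNReal.ofReal_mul (abs_nonneg _), ← ENNReal.ofReal_mul (by positivity)]
            apply ENNReal.ofReal_le_ofReal
            rw [abs_inv, abs_mul, show |(2 : ℝ)| = 2 by norm_num, mul_inv]
            have := Real.pi_le_four
            have h5 : 0 ≤ W ^ 2 * |α|⁻¹ := by positivity
            nlinarith
      _ = _ := by
          rw [← ENNReal.ofReal_add (by positivity) (by positivity)]
          congr 1
          ring

/-- the linear part of the phase on a line -/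
noncomputable def Ac (a b l : ℂ) : ℂ := (3 * a * l + b * conj l) * (l / ‖l‖) ^ 2

noncomputable def be (a b l : ℂ) : ℝ := 2 * (b * l).re - (Ac a b l).re

noncomputable def al (a b l : ℂ) : ℝ := -(Ac a b l).im

noncomputable def om (a b c : ℂ) (d : ℝ) (l : ℂ) : ℝ := -(wc a b c d l * (l / ‖l‖)).im

/-- the inner oscillatory integral -/
noncomputable def JJ (a b c : ℂ) (d : ℝ) (g : ℂ → ℂ) (l : ℂ) (s : ℝ) : ℂ :=
  ee (((Ac a b l).re + 2 * (b * l).re) * s ^ 2 + (wc a b c d l * (l / ‖l‖)).re * s) *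
    ∫ τ in Icc (-1 : ℝ) 1, (g (l / ‖l‖ * (s + τ * I) + l) * conj (g (l / ‖l‖ * (s + τ * I)))) *
      qp (be a b l) (2 * al a b l * s + om a b c d l) τ

end Pool.Agent.Y250.CT
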