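import Mathlib
import Pool.Agent.Y250.CT.A4
set_option autoImplicit false

/-! The autocorrelation at one frequency, integrated over all times. -/

namespace Pool.Agent.Y250.CT

open MeasureTheory Set Complex Filter Topology
open scoped ENNReal NNReal ComplexConjugate FourierTransform

lemma unit_norm (l : ℂ) (hl : l ≠ 0) : ‖l / (‖l‖ : ℂ)‖ = 1 := by
  rw [norm_div, Complex.norm_real, norm_norm, div_self (norm_ne_zero_iff.mpr hl)]

lemma norm_pt (w : ℂ) (hw : ‖w‖ = 1) (s τ : ℝ) : ‖w * (s + τ * I)‖ ^ 2 = s ^ 2 + τ ^ 2 := by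
  rw [norm_mul, hw, one_mul, nsq]
  simp

lemma g_zero {g : ℂ → ℂ} {V : ℝ} (h : LV g V) (w : ℂ) (hw : ‖w‖ = 1) (s τ : ℝ)
    (hs : 1 / 2 < |s| ∨ 1 / 2 < |τ|) : g (w * (s + τ * I)) = 0 := by
  apply h.supp
  have h1 := norm_pt w hw s τ
  by_contra hc
  push Not at hc
  have h2 : ‖w * (s + τ * I)‖ ^ 2 ≤ (1 / 2) ^ 2 := pow_le_pow_left₀ (norm_nonneg _) hc 2
  rw [h1] at h2
  rcases hs with h3 | h3
  · have : (1 / 2) ^ 2 < |s| ^ 2 := pow_lt_pow_left₀ h3 (by norm_num) (by norm_num)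
    rw [sq_abs] at this
    nlinarith [sq_nonneg τ]
  · have : (1 / 2) ^ 2 < |τ| ^ 2 := pow_lt_pow_left₀ h3 (by norm_num) (by norm_num)
    rw [sq_abs] at this
    nlinarith [sq_nonneg s]

lemma JJ_osc (a b c : ℂ) (d : ℝ) {g : ℂ → ℂ} {V : ℝ} (h : LV g V) (l : ℂ) (hl : l ≠ 0) (s : ℝ) :
    ‖JJ a b c d g l s‖ ≤ 48 * V ^ 2 ∧
    (be a b l ≠ 0 → ‖JJ a b c d g l s‖ ≤ 48 * V ^ 2 * (Real.sqrt |be a b l|)⁻¹) ∧
    (2 * al a b l * s + om a b c d l ≠ 0 → 4 * |be a b l| ≤ |2 * al a b l * s + om a b c d l| →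
      ‖JJ a b c d g l s‖ ≤ 48 * V ^ 2 * |2 * al a b l * s + om a b c d l|⁻¹) := by
  set w : ℂ := l / ‖l‖ with hw
  have hw1 : ‖w‖ = 1 := unit_norm l hl
  set G : ℝ → ℂ := fun τ => g (w * (s + τ * I) + l) * conj (g (w * (s + τ * I))) with hG
  have hV := h.prod (w * s) (w * I) l
  have e1 : (fun τ : ℝ => g (w * s + τ * (w * I) + l) * conj (g (w * s + τ * (w * I)))) = G := by
    ext τ
    have : w * s + τ * (w * I) = w * (s + τ * I) := by ring
    simp only [hG, this]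
  rw [e1] at hV
  have hs : ∀ τ, 1 < |τ| → G τ = 0 := by
    intro τ hτ
    simp only [hG]
    rw [g_zero h w hw1 s τ (Or.inr (by linarith)), map_zero, mul_zero]
  have h1 := osc G (2 * V ^ 2) (by positivity) hV hs (be a b l) (2 * al a b l * s + om a b c d l)
  have e2 : ‖JJ a b c d g l s‖ = ‖∫ x in Icc (-1 : ℝ) 1, G x * qp (be a b l) (2 * al a b l * s + om a b c d l) x‖ := by
    unfold JJ
    rw [norm_mul, norm_ee, one_mul]
  rw [e2]
  refine ⟨?_, ?_, ?_⟩
  · have := h1.1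
    nlinarith [sq_nonneg V]
  · intro hb
    have := h1.2.1 hb
    linarith
  · intro hp hbp
    have := h1.2.2 hp hbp
    linarith

lemma JJ_supp (a b c : ℂ) (d : ℝ) {g : ℂ → ℂ} {V : ℝ} (h : LV g V) (l : ℂ) (hl : l ≠ 0) (s : ℝ)
    (hs : 1 / 2 < |s|) : JJ a b c d g l s = 0 := by
  unfold JJ
  have : ∀ τ ∈ Icc (-1 : ℝ) 1, (g (l / ‖l‖ * (s + τ * I) + l) * conj (g (l / ‖l‖ * (s + τ * I)))) *
      qp (be a b l) (2 * al a b l * s + om a b c d l) τ = 0 := by
    intro τ _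
    rw [g_zero h (l / ‖l‖) (unit_norm l hl) s τ (Or.inl hs), map_zero, mul_zero, zero_mul]
  rw [setIntegral_congr_fun measurableSet_Icc this, integral_zero, mul_zero]

lemma JJ_meas (a b c : ℂ) (d : ℝ) {g : ℂ → ℂ} (h : Measurable g) (l : ℂ) :
    Measurable (JJ a b c d g l) := by
  unfold JJ
  apply Measurable.mul
  · exact (ee_cont.comp (by fun_prop)).measurable
  · have h1 : Measurable (fun p : ℝ × ℝ => (g (l / ‖l‖ * (p.1 + p.2 * I) + l) *
        conj (g (l / ‖l‖ * (p.1 + p.2 * I)))) * qp (be a b l) (2 * al a b l * p.1 + om a b c d l) p.2) := by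
      apply Measurable.mul
      · apply Measurable.mul
        · exact h.comp (Continuous.measurable (by fun_prop))
        · exact Complex.continuous_conj.measurable.comp (h.comp (Continuous.measurable (by fun_prop)))
      · apply Continuous.measurable
        unfold qp
        fun_prop
    exact (h1.stronglyMeasurable.integral_prod_right' (ν := volume.restrict (Icc (-1 : ℝ) 1))).measurable

lemma prod_int {g : ℂ → ℂ} {V : ℝ} (h : LV g V) (l : ℂ) (φ : ℂ → ℝ) (hφ : Continuous φ) :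
    Integrable fun m => ee (φ m) * (g (m + l) * conj (g m)) := by
  have h1 := h.adm.integrable
  refine (h1.norm.const_mul V).mono' ?_ (ae_of_all _ fun m => ?_)
  · apply Measurable.aestronglyMeasurable
    apply Measurable.mul
    · exact (ee_cont.comp hφ).measurable
    · apply Measurable.mul
      · exact h.meas.comp (measurable_add_const l)
      · exact Complex.continuous_conj.measurable.comp h.meas
  · rw [norm_mul, norm_ee, one_mul, norm_mul, RCLike.norm_conj]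
    exact mul_le_mul_of_nonneg_right (h.bd _) (norm_nonneg _)

lemma wc_shift (a b c : ℂ) (d t : ℝ) (l : ℂ) : wc a b c (d - 2 * t) l = wc a b c d l - 2 * t * conj l := by
  unfold wc
  push_cast
  ring

lemma phase_line (a b c : ℂ) (d t : ℝ) (l : ℂ) (hl : l ≠ 0) (s τ : ℝ) :
    ((3 * a * l + b * conj l) * (l / ‖l‖ * (s + τ * I)) ^ 2).re + 2 * (b * l).re * ‖l / ‖l‖ * (s + τ * I)‖ ^ 2 +
      (wc a b c (d - 2 * t) l * (l / ‖l‖ * (s + τ * I))).re =
    -(2 * t * ‖l‖ * s) + (((Ac a b l).re + 2 * (b * l).re) * s ^ 2 + (wc a b c d l * (l / ‖l‖)).re * s) +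
      (be a b l * τ ^ 2 + (2 * al a b l * s + om a b c d l) * τ) := by
  have hn : (‖l‖ : ℂ) ≠ 0 := by
    rw [Ne, Complex.ofReal_eq_zero, norm_eq_zero]
    exact hl
  have hlc : conj l * (l / ‖l‖) = ‖l‖ := by
    rw [← mul_div_assoc, mul_comm, Complex.mul_conj, Complex.normSq_eq_norm_sq, div_eq_iff hn]
    push_cast
    ring
  rw [norm_pt _ (unit_norm l hl), wc_shift]
  have e1 : (3 * a * l + b * conj l) * (l / ‖l‖ * (s + τ * I)) ^ 2 = Ac a b l * (s + τ * I) ^ 2 := by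
    unfold Ac
    ring
  have e2 : (wc a b c d l - 2 * t * conj l) * (l / ‖l‖ * (s + τ * I)) =
      (wc a b c d l * (l / ‖l‖)) * (s + τ * I) - ((2 * t * ‖l‖ : ℝ) : ℂ) * (s + τ * I) := by
    have e3 : 2 * t * conj l * (l / ‖l‖ * (s + τ * I)) = 2 * t * (conj l * (l / ‖l‖)) * (s + τ * I) := by ring
    rw [sub_mul, e3, hlc]
    push_cast
    ring
  rw [e1, e2]
  unfold be al om
  set A := Ac a b l
  set W := wc a b c d l * (l / ‖l‖)
  simp only [sq, Complex.add_re, Complex.sub_re, Complex.mul_re, Complex.mul_im, Complex.add_im,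
    Complex.ofReal_re, Complex.ofReal_im, Complex.I_re, Complex.I_im]
  ring

lemma ac_line (a b c e : ℂ) (d : ℝ) {g : ℂ → ℂ} {V : ℝ} (h : LV g V) (l : ℂ) (hl : l ≠ 0) (t : ℝ) :
    ‖ac (ft (dens a b c e d g) t) l‖ₑ = ‖∫ s : ℝ, ee (-(2 * t * ‖l‖ * s)) * JJ a b c d g l s‖ₑ := by
  rw [ft_dens, ac_dens, enorm_mul, ← ofReal_norm (ee _), norm_ee, ENNReal.ofReal_one, one_mul]
  rw [slice _ (prod_int h l _ (by fun_prop)) (l / ‖l‖) (unit_norm l hl)]
  congr 2
  ext s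
  have e1 : ∀ τ : ℝ, ee (((3 * a * l + b * conj l) * (l / ‖l‖ * (s + τ * I)) ^ 2).re +
      2 * (b * l).re * ‖l / ‖l‖ * (s + τ * I)‖ ^ 2 + (wc a b c (d - 2 * t) l * (l / ‖l‖ * (s + τ * I))).re) *
      (g (l / ‖l‖ * (s + τ * I) + l) * conj (g (l / ‖l‖ * (s + τ * I)))) =
      (ee (-(2 * t * ‖l‖ * s)) * ee (((Ac a b l).re + 2 * (b * l).re) * s ^ 2 +
        (wc a b c d l * (l / ‖l‖)).re * s)) *
      ((g (l / ‖l‖ * (s + τ * I) + l) * conj (g (l / ‖l‖ * (s + τ * I)))) *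
        qp (be a b l) (2 * al a b l * s + om a b c d l) τ) := by
    intro τ
    rw [phase_line a b c d t l hl s τ, ee_add, ee_add]
    have : ee (be a b l * τ ^ 2 + (2 * al a b l * s + om a b c d l) * τ) =
        qp (be a b l) (2 * al a b l * s + om a b c d l) τ := rfl
    rw [this]
    ring
  simp only [e1]
  rw [integral_const_mul, mul_assoc]
  congr 1
  unfold JJ
  congr 1
  symm
  apply setIntegral_eq_integral_of_forall_compl_eq_zero
  intro τ hτ
  have : 1 / 2 < |τ| := by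
    by_contra hc
    push Not at hc
    rw [abs_le] at hc
    exact hτ ⟨by linarith [hc.1], by linarith [hc.2]⟩
  rw [g_zero h (l / ‖l‖) (unit_norm l hl) s τ (Or.inr this), map_zero, mul_zero, zero_mul]

/-- the cubic part seen from the frequency `l` -/
noncomputable def U (a b l : ℂ) : ℂ := b * l ^ 2 - 3 * conj a * conj l ^ 2

lemma U_norm (a b l : ℂ) (hl : l ≠ 0) : (be a b l ^ 2 + al a b l ^ 2) * ‖l‖ ^ 2 = ‖U a b l‖ ^ 2 := by
  have hn : (‖l‖ : ℂ) ≠ 0 := by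
    rw [Ne, Complex.ofReal_eq_zero, norm_eq_zero]
    exact hl
  have hn' : ‖l‖ ≠ 0 := norm_ne_zero_iff.mpr hl
  have hA : Ac a b l * (‖l‖ : ℂ) ^ 2 = 3 * a * l ^ 3 + b * l * (l * conj l) := by
    unfold Ac
    field_simp
  have hlc : l * conj l = ((‖l‖ ^ 2 : ℝ) : ℂ) := by
    rw [Complex.mul_conj, Complex.normSq_eq_norm_sq]
  have e1 : be a b l * ‖l‖ ^ 2 = (U a b l * conj l).re := by
    have h1 : (Ac a b l).re * ‖l‖ ^ 2 = (Ac a b l * (‖l‖ : ℂ) ^ 2).re := by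
      rw [← Complex.ofReal_pow, Complex.re_mul_ofReal]
    have h2 : (b * l).re * ‖l‖ ^ 2 = (b * l * (l * conj l)).re := by
      rw [hlc, Complex.re_mul_ofReal]
    unfold be
    rw [sub_mul, h1, mul_assoc, h2, hA]
    unfold U
    simp only [pow_succ, pow_zero, one_mul, Complex.add_re, Complex.sub_re, Complex.mul_re, Complex.mul_im,
      Complex.add_im, Complex.sub_im, Complex.conj_re, Complex.conj_im]
    have h3r : (3 : ℂ).re = 3 := rfl
    have h3i : (3 : ℂ).im = 0 := rfl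
    rw [h3r, h3i]
    ring
  have e2 : al a b l * ‖l‖ ^ 2 = -(U a b l * conj l).im := by
    have h1 : (Ac a b l).im * ‖l‖ ^ 2 = (Ac a b l * (‖l‖ : ℂ) ^ 2).im := by
      rw [← Complex.ofReal_pow, Complex.im_mul_ofReal]
    unfold al
    rw [neg_mul, h1, hA]
    unfold U
    simp only [pow_succ, pow_zero, one_mul, Complex.add_re, Complex.sub_re, Complex.mul_re, Complex.mul_im,
      Complex.add_im, Complex.sub_im, Complex.conj_re, Complex.conj_im]
    have h3r : (3 : ℂ).re = 3 := rfl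
    have h3i : (3 : ℂ).im = 0 := rfl
    rw [h3r, h3i]
    ring
  have e3 : ‖U a b l * conj l‖ ^ 2 = (be a b l * ‖l‖ ^ 2) ^ 2 + (al a b l * ‖l‖ ^ 2) ^ 2 := by
    rw [nsq, e1, e2]
    ring
  rw [norm_mul, RCLike.norm_conj, mul_pow] at e3
  have h5 : 0 < ‖l‖ ^ 2 := by positivity
  have h6 : ((be a b l ^ 2 + al a b l ^ 2) * ‖l‖ ^ 2) * ‖l‖ ^ 2 = ‖U a b l‖ ^ 2 * ‖l‖ ^ 2 := by
    rw [e3]
    ring
  exact mul_right_cancel₀ h5.ne' h6

end Pool.Agent.Y250.CT
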