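import Mathlib
import Pool.Agent.Y250.CT.A5
set_option autoImplicit false

/-! The autocorrelations, integrated over all times and frequencies. -/

namespace Pool.Agent.Y250.CT

open MeasureTheory Set Complex Filter Topology
open scoped ENNReal NNReal ComplexConjugate FourierTransform

lemma ac_supp {F : ℂ → ℂ} {B : ℝ} (h : Adm F B) (l : ℂ) (hl : 1 < ‖l‖) : ac F l = 0 := by
  unfold ac
  have : ∀ m, F (m + l) * conj (F m) = 0 := by
    intro m
    by_cases hm : 1 / 2 < ‖m‖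
    · rw [h.supp m hm, map_zero, mul_zero]
    · push Not at hm
      have h1 : 1 / 2 < ‖m + l‖ := by
        have := norm_sub_norm_le l (-m)
        rw [norm_neg, sub_neg_eq_add, add_comm] at this
        linarith
      rw [h.supp _ h1, zero_mul]
  simp only [this, integral_zero]

lemma ac_meas (f : ℂ → ℂ) (hf : Measurable f) : Measurable fun p : ℝ × ℂ => ac (ft f p.1) p.2 := by
  have h1 : Measurable fun p : (ℝ × ℂ) × ℂ =>
      ft f p.1.1 (p.2 + p.1.2) * conj (ft f p.1.1 p.2) := by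
    unfold ft
    apply Measurable.mul
    · apply Measurable.mul
      · exact (ee_cont.comp (by fun_prop)).measurable
      · exact hf.comp (Continuous.measurable (by fun_prop))
    · apply Complex.continuous_conj.measurable.comp
      apply Measurable.mul
      · exact (ee_cont.comp (by fun_prop)).measurable
      · exact hf.comp measurable_snd
  exact (h1.stronglyMeasurable.integral_prod_right' (ν := volume)).measurable

lemma J_int (a b c : ℂ) (d : ℝ) {g : ℂ → ℂ} {V : ℝ} (h : LV g V) (l : ℂ) (hl : l ≠ 0) :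
    Integrable (JJ a b c d g l) ∧ MemLp (JJ a b c d g l) 2 := by
  have hm := JJ_meas a b c d h.meas l
  have h1 : IntegrableOn (JJ a b c d g l) (Icc (-(1 / 2)) (1 / 2)) := by
    apply Measure.integrableOn_of_bounded (M := 48 * V ^ 2) (by rw [Real.volume_Icc]; exact ENNReal.ofReal_ne_top)
    · exact ae_of_all _ fun s => (JJ_osc a b c d h l hl s).1
    · exact hm.aestronglyMeasurable
  have h2 : Integrable (JJ a b c d g l) := by
    rw [integrableOn_iff_integrable_of_support_subset] at h1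
    · exact h1
    · intro s hs
      by_contra hc
      apply hs
      apply JJ_supp a b c d h l hl
      by_contra hc2
      push Not at hc2
      exact hc (abs_le.mp hc2)
  refine ⟨h2, ?_⟩
  rw [memLp_two_iff_integrable_sq_norm h2.1]
  refine (h2.norm.const_mul (48 * V ^ 2)).mono' (h2.1.norm.pow 2) (ae_of_all _ fun s => ?_)
  rw [Real.norm_eq_abs, abs_of_nonneg (by positivity), sq]
  exact mul_le_mul_of_nonneg_right (JJ_osc a b c d h l hl s).1 (norm_nonneg _)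

lemma time_eq (a b c e : ℂ) (d : ℝ) {g : ℂ → ℂ} {V : ℝ} (h : LV g V) (l : ℂ) (hl : l ≠ 0) :
    ∫⁻ t : ℝ, ‖ac (ft (dens a b c e d g) t) l‖ₑ ^ 2 =
      ENNReal.ofReal (Real.pi / ‖l‖) * ∫⁻ s, ‖JJ a b c d g l s‖ₑ ^ 2 := by
  simp only [ac_line a b c e d h l hl]
  exact planch1 _ (J_int a b c d h l hl).1 (J_int a b c d h l hl).2 ‖l‖ (norm_pos_iff.mpr hl)

/-- the constant -/
noncomputable def K0 (V : ℝ) : ℝ := 16 * Real.pi * (48 * V ^ 2) ^ 2

lemma K0_nonneg (V : ℝ) : 0 ≤ K0 V := by unfold K0; positivity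

lemma time_triv (a b c e : ℂ) (d : ℝ) {g : ℂ → ℂ} {V : ℝ} (h : LV g V) (l : ℂ) (hl : l ≠ 0) :
    ∫⁻ t : ℝ, ‖ac (ft (dens a b c e d g) t) l‖ₑ ^ 2 ≤ ENNReal.ofReal (K0 V) * (ENNReal.ofReal ‖l‖)⁻¹ := by
  have hl' : 0 < ‖l‖ := norm_pos_iff.mpr hl
  rw [time_eq a b c e d h l hl]
  have h1 := (lineL2 (JJ a b c d g l) (48 * V ^ 2) (al a b l) (be a b l) (om a b c d l) (by positivity)
    (fun s => (JJ_osc a b c d h l hl s).1) (fun hb s => (JJ_osc a b c d h l hl s).2.1 hb)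
    (fun s => (JJ_osc a b c d h l hl s).2.2) (JJ_supp a b c d h l hl)).1
  calc _ ≤ ENNReal.ofReal (Real.pi / ‖l‖) * ENNReal.ofReal ((48 * V ^ 2) ^ 2) := by gcongr
    _ ≤ _ := by
        rw [← ENNReal.ofReal_mul (by positivity), ← ENNReal.ofReal_inv_of_pos hl',
          ← ENNReal.ofReal_mul (K0_nonneg V)]
        apply ENNReal.ofReal_le_ofReal
        unfold K0
        rw [div_mul_eq_mul_div, div_eq_mul_inv]
        gcongr
        nlinarith [Real.pi_pos, mul_nonneg Real.pi_pos.le (sq_nonneg (48 * V ^ 2))]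

lemma time_U (a b c e : ℂ) (d : ℝ) {g : ℂ → ℂ} {V : ℝ} (h : LV g V) (l : ℂ) (hl : l ≠ 0)
    (hU : U a b l ≠ 0) :
    ∫⁻ t : ℝ, ‖ac (ft (dens a b c e d g) t) l‖ₑ ^ 2 ≤
      ENNReal.ofReal (K0 V) * (ENNReal.ofReal ‖U a b l‖)⁻¹ := by
  have hl' : 0 < ‖l‖ := norm_pos_iff.mpr hl
  have hU' : 0 < ‖U a b l‖ := norm_pos_iff.mpr hU
  rw [time_eq a b c e d h l hl]
  have h1 := lineL2 (JJ a b c d g l) (48 * V ^ 2) (al a b l) (be a b l) (om a b c d l) (by positivity)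
    (fun s => (JJ_osc a b c d h l hl s).1) (fun hb s => (JJ_osc a b c d h l hl s).2.1 hb)
    (fun s => (JJ_osc a b c d h l hl s).2.2) (JJ_supp a b c d h l hl)
  have h2 := U_norm a b l hl
  set β := be a b l
  set α := al a b l
  set u := ‖U a b l‖
  set n := ‖l‖
  rw [← ENNReal.ofReal_inv_of_pos hU', ← ENNReal.ofReal_mul (K0_nonneg V)]
  have hmain : ∀ x : ℝ, (x = β ∨ x = α) → u / (2 * n) ≤ |x| →
      ∫⁻ s, ‖JJ a b c d g l s‖ₑ ^ 2 ≤ ENNReal.ofReal (16 * (48 * V ^ 2) ^ 2 * n / u) := by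
    intro x hx hxu
    have hx0 : 0 < |x| := lt_of_lt_of_le (by positivity) hxu
    have hinv : |x|⁻¹ ≤ 2 * n / u := by
      rw [inv_le_comm₀ hx0 (by positivity), inv_div]
      exact hxu
    have hle : ∫⁻ s, ‖JJ a b c d g l s‖ₑ ^ 2 ≤ ENNReal.ofReal (8 * (48 * V ^ 2) ^ 2 * |x|⁻¹) := by
      rcases hx with rfl | rfl
      · refine (h1.2.1 (abs_pos.1 hx0)).trans ?_
        apply ENNReal.ofReal_le_ofReal
        have h5 : 0 ≤ (48 * V ^ 2) ^ 2 * |β|⁻¹ := by positivity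
        nlinarith
      · exact h1.2.2 (abs_pos.1 hx0)
    refine hle.trans ?_
    apply ENNReal.ofReal_le_ofReal
    calc 8 * (48 * V ^ 2) ^ 2 * |x|⁻¹ ≤ 8 * (48 * V ^ 2) ^ 2 * (2 * n / u) := by gcongr
      _ = _ := by ring
  have hcase : ∫⁻ s, ‖JJ a b c d g l s‖ₑ ^ 2 ≤ ENNReal.ofReal (16 * (48 * V ^ 2) ^ 2 * n / u) := by
    have key : ∀ x y : ℝ, (x ^ 2 + y ^ 2) * n ^ 2 = u ^ 2 → |y| ≤ |x| → u / (2 * n) ≤ |x| := by
      intro x y hxy hle
      rw [div_le_iff₀ (by positivity)]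
      rw [← pow_le_pow_iff_left₀ (norm_nonneg _) (by positivity) two_ne_zero]
      have h5 : y ^ 2 ≤ x ^ 2 := sq_le_sq.mpr hle
      have h6 : (|x| * (2 * n)) ^ 2 = 4 * x ^ 2 * n ^ 2 := by
        rw [mul_pow, sq_abs]; ring
      rw [h6, ← hxy]
      nlinarith [sq_nonneg n, mul_nonneg (sub_nonneg.mpr h5) (sq_nonneg n), mul_nonneg (sq_nonneg x) (sq_nonneg n)]
    rcases le_total |α| |β| with h3 | h3
    · exact hmain β (Or.inl rfl) (key β α h2 h3)
    · exact hmain α (Or.inr rfl) (key α β (by rw [add_comm]; exact h2) h3)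
  calc _ ≤ ENNReal.ofReal (Real.pi / n) * ENNReal.ofReal (16 * (48 * V ^ 2) ^ 2 * n / u) := by gcongr
    _ = _ := by
        rw [← ENNReal.ofReal_mul (by positivity)]
        congr 1
        unfold K0
        field_simp

/-- interpolated form -/
lemma time_pt (a b c e : ℂ) (d : ℝ) {g : ℂ → ℂ} {V : ℝ} (h : LV g V) (l : ℂ) (hl : l ≠ 0) (κ : ℂ)
    (hκ : |(κ * l ^ 2).re| ≤ ‖U a b l‖) (δ : ℝ) (hδ0 : 0 ≤ δ) (hδ1 : δ ≤ 1) :
    ∫⁻ t : ℝ, ‖ac (ft (dens a b c e d g) t) l‖ₑ ^ 2 ≤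
      ENNReal.ofReal (K0 V) * (ENNReal.ofReal ‖l‖ ^ δ * ENNReal.ofReal |(κ * l ^ 2).re| ^ (1 - δ))⁻¹ := by
  set T := ∫⁻ t : ℝ, ‖ac (ft (dens a b c e d g) t) l‖ₑ ^ 2 with hT
  set C := ENNReal.ofReal (K0 V) with hC
  set X := ENNReal.ofReal ‖l‖ with hX
  set Y := ENNReal.ofReal |(κ * l ^ 2).re| with hY
  have hX1 : T ≤ C * X⁻¹ := time_triv a b c e d h l hl
  have hCt : C ≠ ⊤ := ENNReal.ofReal_ne_top
  have hX0 : X ≠ 0 := by
    rw [hX, Ne, ENNReal.ofReal_eq_zero, not_le]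
    exact norm_pos_iff.mpr hl
  have hY1 : T ≤ C * Y⁻¹ := by
    by_cases hC0 : C = 0
    · rw [hC0, zero_mul] at hX1 ⊢
      exact hX1
    · by_cases hY0 : Y = 0
      · rw [hY0, ENNReal.inv_zero, ENNReal.mul_top hC0]
        exact le_top
      · have hU : U a b l ≠ 0 := by
          intro h0
          rw [h0, norm_zero] at hκ
          apply hY0
          rw [hY, ENNReal.ofReal_eq_zero]
          exact hκ
        refine (time_U a b c e d h l hl hU).trans ?_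
        gcongr
        exact ENNReal.ofReal_le_ofReal hκ
  have e1 : T = T ^ δ * T ^ (1 - δ) := by
    rw [← ENNReal.rpow_add_of_nonneg _ _ hδ0 (by linarith)]
    simp
  rw [e1]
  calc T ^ δ * T ^ (1 - δ) ≤ (C * X⁻¹) ^ δ * (C * Y⁻¹) ^ (1 - δ) := by
        gcongr
    _ = (C ^ δ * C ^ (1 - δ)) * ((X ^ δ)⁻¹ * (Y ^ (1 - δ))⁻¹) := by
        rw [ENNReal.mul_rpow_of_nonneg _ _ hδ0, ENNReal.mul_rpow_of_nonneg _ _ (by linarith),
          ENNReal.inv_rpow, ENNReal.inv_rpow]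
        ring
    _ = C * (X ^ δ * Y ^ (1 - δ))⁻¹ := by
        rw [← ENNReal.rpow_add_of_nonneg _ _ hδ0 (by linarith)]
        rw [show δ + (1 - δ) = 1 by ring, ENNReal.rpow_one, ENNReal.mul_inv]
        · right
          exact (ENNReal.rpow_lt_top_of_nonneg (by linarith) ENNReal.ofReal_ne_top).ne
        · left
          exact (ENNReal.rpow_lt_top_of_nonneg hδ0 ENNReal.ofReal_ne_top).ne

/-- one dimensional singular integral -/
lemma sing1 (r : ℝ) (_hr0 : 0 ≤ r) (hr1 : r < 1) :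
    ∫⁻ s in Icc (-1 : ℝ) 1, (ENNReal.ofReal |s| ^ r)⁻¹ ≤ ENNReal.ofReal (2 / (1 - r)) := by
  have h1 : ∫⁻ s in Ioc (0 : ℝ) 1, (ENNReal.ofReal |s| ^ r)⁻¹ = ENNReal.ofReal (1 / (1 - r)) := by
    have e1 : ∀ s ∈ Ioc (0 : ℝ) 1, (ENNReal.ofReal |s| ^ r)⁻¹ = ENNReal.ofReal (s ^ (-r)) := by
      intro s hs
      have hs0 : 0 < s := hs.1
      rw [abs_of_pos hs0, ENNReal.ofReal_rpow_of_pos hs0, Real.rpow_neg hs0.le,
        ENNReal.ofReal_inv_of_pos (Real.rpow_pos_of_pos hs0 r)]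
    rw [setLIntegral_congr_fun measurableSet_Ioc e1]
    have h2 : IntervalIntegrable (fun s : ℝ => s ^ (-r)) volume 0 1 :=
      intervalIntegral.intervalIntegrable_rpow' (by linarith)
    rw [intervalIntegrable_iff_integrableOn_Ioc_of_le zero_le_one] at h2
    rw [← ofReal_integral_eq_lintegral_ofReal h2 (by
      filter_upwards [ae_restrict_mem measurableSet_Ioc] with s hs
      exact Real.rpow_nonneg hs.1.le _)]
    congr 1
    rw [← intervalIntegral.integral_of_le zero_le_one, integral_rpow (Or.inl (by linarith))]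
    rw [Real.one_rpow, Real.zero_rpow (by linarith), sub_zero]
    congr 1
    ring
  have h3 : ∫⁻ s in Ico (-1 : ℝ) 0, (ENNReal.ofReal |s| ^ r)⁻¹ = ENNReal.ofReal (1 / (1 - r)) := by
    rw [← h1]
    have h4 := (Measure.measurePreserving_neg (volume : Measure ℝ)).setLIntegral_comp_preimage_emb
      (Homeomorph.neg ℝ).measurableEmbedding (fun s => (ENNReal.ofReal |s| ^ r)⁻¹) (Ioc (0 : ℝ) 1)
    rw [← h4]
    have e2 : (Neg.neg : ℝ → ℝ) ⁻¹' Ioc (0 : ℝ) 1 = Ico (-1) 0 := by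
      ext s
      simp only [mem_preimage, mem_Ioc, mem_Ico]
      constructor <;> rintro ⟨h5, h6⟩ <;> constructor <;> linarith
    rw [e2]
    apply lintegral_congr
    intro s
    rw [abs_neg]
  have h5 : Icc (-1 : ℝ) 1 ⊆ (Ico (-1 : ℝ) 0 ∪ Ioc (0 : ℝ) 1) ∪ {0} := by
    intro s hs
    rcases lt_trichotomy s 0 with h | h | h
    · exact Or.inl (Or.inl ⟨hs.1, h⟩)
    · exact Or.inr h
    · exact Or.inl (Or.inr ⟨h, hs.2⟩)
  calc ∫⁻ s in Icc (-1 : ℝ) 1, (ENNReal.ofReal |s| ^ r)⁻¹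
      ≤ ∫⁻ s in (Ico (-1 : ℝ) 0 ∪ Ioc (0 : ℝ) 1) ∪ {0}, (ENNReal.ofReal |s| ^ r)⁻¹ :=
        lintegral_mono_set h5
    _ ≤ (∫⁻ s in (Ico (-1 : ℝ) 0 ∪ Ioc (0 : ℝ) 1), (ENNReal.ofReal |s| ^ r)⁻¹) +
          ∫⁻ s in ({0} : Set ℝ), (ENNReal.ofReal |s| ^ r)⁻¹ := lintegral_union_le _ _ _
    _ ≤ ((∫⁻ s in Ico (-1 : ℝ) 0, (ENNReal.ofReal |s| ^ r)⁻¹) +
          ∫⁻ s in Ioc (0 : ℝ) 1, (ENNReal.ofReal |s| ^ r)⁻¹) + 0 := by
        gcongr
        · exact lintegral_union_le _ _ _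
        · rw [Measure.restrict_singleton]
          simp
    _ = _ := by
        rw [h1, h3, add_zero, ← ENNReal.ofReal_add (by rw [one_div_nonneg]; linarith)
          (by rw [one_div_nonneg]; linarith)]
        congr 1
        ring

end Pool.Agent.Y250.CT
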