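import Mathlib
import Pool.Agent.Y250.CT.A6
set_option autoImplicit false

/-! The near region of times: the space of all times, and the far region. -/

namespace Pool.Agent.Y250.CT

open MeasureTheory Set Complex Filter Topology
open scoped ENNReal NNReal ComplexConjugate FourierTransform

/-- a unit vector that rotates `κ` -/
lemma unit_rot (κ u : ℂ) (hu : ‖u‖ = 1) : ∃ z : ℂ, ‖z‖ = 1 ∧ κ * z ^ 2 = ‖κ‖ * u := by
  obtain ⟨v, hv⟩ := IsAlgClosed.exists_pow_nat_eq (u * cexp (-(arg κ * I))) (n := 2) (by norm_num)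
  refine ⟨v, ?_, ?_⟩
  · have h1 : ‖v‖ ^ 2 = 1 := by
      rw [← norm_pow, hv, norm_mul, hu, one_mul, show -((arg κ : ℂ) * I) = ((-arg κ : ℝ) : ℂ) * I by push_cast; ring,
        Complex.norm_exp_ofReal_mul_I]
    have h2 : (‖v‖ - 1) * (‖v‖ + 1) = 0 := by nlinarith
    rcases mul_eq_zero.mp h2 with h3 | h3
    · linarith
    · have := norm_nonneg v
      linarith
  · rw [hv]
    have e := Complex.norm_mul_exp_arg_mul_I κ
    have : cexp (arg κ * I) * cexp (-(arg κ * I)) = 1 := by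
      rw [← Complex.exp_add]; simp
    calc κ * (u * cexp (-(arg κ * I))) = (‖κ‖ * cexp (arg κ * I)) * (u * cexp (-(arg κ * I))) := by rw [e]
      _ = ‖κ‖ * u * (cexp (arg κ * I) * cexp (-(arg κ * I))) := by ring
      _ = _ := by rw [this, mul_one]

/-- the one dimensional weight -/
noncomputable def kw (r s : ℝ) : ℝ≥0∞ := (Icc (-1 : ℝ) 1).indicator (fun s => (ENNReal.ofReal |s| ^ r)⁻¹) s

lemma kw_meas (r : ℝ) : Measurable (kw r) := by
  unfold kw
  apply Measurable.indicator _ measurableSet_Icc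
  fun_prop

lemma kw_int (r : ℝ) (hr0 : 0 ≤ r) (hr1 : r < 1) : ∫⁻ s, kw r s ≤ ENNReal.ofReal (2 / (1 - r)) := by
  unfold kw
  rw [lintegral_indicator measurableSet_Icc]
  exact sing1 r hr0 hr1

lemma kw_prod (r : ℝ) (hr0 : 0 ≤ r) (hr1 : r < 1) :
    ∫⁻ s, ∫⁻ τ, kw r s * kw r τ ≤ ENNReal.ofReal ((2 / (1 - r)) ^ 2) := by
  have h : ∀ s, ∫⁻ τ, kw r s * kw r τ = kw r s * ∫⁻ τ, kw r τ := fun s =>
    lintegral_const_mul _ (kw_meas r)
  simp only [h]
  rw [lintegral_mul_const _ (kw_meas r), sq, ENNReal.ofReal_mul (by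
    have : 0 < 1 - r := by linarith
    positivity)]
  exact mul_le_mul' (kw_int r hr0 hr1) (kw_int r hr0 hr1)

lemma sing2 (κ : ℂ) (δ : ℝ) (hδ0 : 0 < δ) (hδ1 : δ ≤ 1) :
    ∫⁻ l in Metric.closedBall (0 : ℂ) 1,
      (ENNReal.ofReal ‖l‖ ^ δ * ENNReal.ofReal |(κ * l ^ 2).re| ^ (1 - δ))⁻¹ ≤
      (ENNReal.ofReal ‖κ‖ ^ (1 - δ))⁻¹ * ENNReal.ofReal ((4 / δ) ^ 2) := by
  obtain ⟨z, hz, hκz⟩ := unit_rot κ (-I) (by rw [norm_neg, Complex.norm_I])
  rw [← lintegral_indicator Metric.isClosed_closedBall.measurableSet]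
  rw [lslice _ (by
    apply Measurable.indicator _ Metric.isClosed_closedBall.measurableSet
    apply Measurable.inv
    apply Measurable.mul
    · fun_prop
    · apply Measurable.pow_const
      apply ENNReal.measurable_ofReal.comp
      apply Measurable.abs
      exact Complex.measurable_re.comp (by fun_prop)) z hz]
  have hpt : ∀ s τ : ℝ, (Metric.closedBall (0 : ℂ) 1).indicator (fun l =>
      (ENNReal.ofReal ‖l‖ ^ δ * ENNReal.ofReal |(κ * l ^ 2).re| ^ (1 - δ))⁻¹) (z * (s + τ * I)) ≤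
      (ENNReal.ofReal ‖κ‖ ^ (1 - δ))⁻¹ * (kw (1 - δ / 2) s * kw (1 - δ / 2) τ) := by
    intro s τ
    by_cases hm : z * (s + τ * I) ∈ Metric.closedBall (0 : ℂ) 1
    · rw [indicator_of_mem hm]
      rw [mem_closedBall_zero_iff] at hm
      have hn := norm_pt z hz s τ
      have hn1 : s ^ 2 + τ ^ 2 ≤ 1 := by
        rw [← hn]
        exact pow_le_one₀ (norm_nonneg _) hm
      have hs : s ∈ Icc (-1 : ℝ) 1 := by
        rw [mem_Icc, ← abs_le, ← sq_le_one_iff_abs_le_one]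
        nlinarith [sq_nonneg τ]
      have hτ : τ ∈ Icc (-1 : ℝ) 1 := by
        rw [mem_Icc, ← abs_le, ← sq_le_one_iff_abs_le_one]
        nlinarith [sq_nonneg s]
      unfold kw
      rw [indicator_of_mem hs, indicator_of_mem hτ]
      have e1 : (κ * (z * (s + τ * I)) ^ 2).re = 2 * ‖κ‖ * (s * τ) := by
        have : κ * (z * (s + τ * I)) ^ 2 = (κ * z ^ 2) * (s + τ * I) ^ 2 := by ring
        rw [this, hκz]
        simp only [sq, Complex.mul_re, Complex.mul_im, Complex.add_re, Complex.add_im, Complex.neg_re,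
          Complex.neg_im, Complex.ofReal_re, Complex.ofReal_im, Complex.I_re, Complex.I_im]
        ring
      rw [e1]
      set K := ENNReal.ofReal ‖κ‖
      set S := ENNReal.ofReal |s|
      set T := ENNReal.ofReal |τ|
      have hδ2 : 0 ≤ δ / 2 := by linarith
      have hδ3 : 0 ≤ 1 - δ := by linarith
      have hX : (S * T) ^ (δ / 2) ≤ ENNReal.ofReal ‖z * (s + τ * I)‖ ^ δ := by
        have h1 : S * T ≤ ENNReal.ofReal ‖z * (s + τ * I)‖ ^ (2 : ℝ) := by
          rw [← ENNReal.ofReal_mul (abs_nonneg _), ENNReal.ofReal_rpow_of_nonneg (norm_nonneg _) (by norm_num)]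
          apply ENNReal.ofReal_le_ofReal
          rw [Real.rpow_two, hn]
          nlinarith [sq_nonneg (|s| - |τ|), sq_abs s, sq_abs τ, abs_nonneg s, abs_nonneg τ,
            mul_nonneg (abs_nonneg s) (abs_nonneg τ)]
        calc (S * T) ^ (δ / 2) ≤ (ENNReal.ofReal ‖z * (s + τ * I)‖ ^ (2 : ℝ)) ^ (δ / 2) := by gcongr
          _ = _ := by
              rw [← ENNReal.rpow_mul]
              congr 1
              ring
      have hY : K ^ (1 - δ) * (S * T) ^ (1 - δ) ≤ ENNReal.ofReal |2 * ‖κ‖ * (s * τ)| ^ (1 - δ) := by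
        rw [← ENNReal.mul_rpow_of_nonneg _ _ hδ3]
        gcongr
        rw [← ENNReal.ofReal_mul (abs_nonneg _), ← ENNReal.ofReal_mul (norm_nonneg _)]
        apply ENNReal.ofReal_le_ofReal
        rw [abs_mul, abs_mul, abs_mul, abs_norm, show |(2 : ℝ)| = 2 by norm_num]
        have : 0 ≤ ‖κ‖ * (|s| * |τ|) := by positivity
        linarith
      have hprod : (S * T) ^ (δ / 2) * (S * T) ^ (1 - δ) = S ^ (1 - δ / 2) * T ^ (1 - δ / 2) := by
        rw [← ENNReal.rpow_add_of_nonneg _ _ hδ2 hδ3, show δ / 2 + (1 - δ) = 1 - δ / 2 by ring,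
          ENNReal.mul_rpow_of_nonneg _ _ (by linarith)]
      have hfin : ∀ x : ℝ, ENNReal.ofReal x ^ (1 - δ / 2) ≠ ⊤ := fun x =>
        (ENNReal.rpow_lt_top_of_nonneg (by linarith) ENNReal.ofReal_ne_top).ne
      have hfin2 : K ^ (1 - δ) ≠ ⊤ := (ENNReal.rpow_lt_top_of_nonneg hδ3 ENNReal.ofReal_ne_top).ne
      rw [← ENNReal.mul_inv (Or.inr (hfin _)) (Or.inl (hfin _)), ← ENNReal.mul_inv
        (Or.inr (ENNReal.mul_ne_top (hfin _) (hfin _))) (Or.inl hfin2), ENNReal.inv_le_inv]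
      calc K ^ (1 - δ) * (S ^ (1 - δ / 2) * T ^ (1 - δ / 2))
          = (S * T) ^ (δ / 2) * (K ^ (1 - δ) * (S * T) ^ (1 - δ)) := by
            rw [← hprod]
            ring
        _ ≤ _ := mul_le_mul' hX hY
    · rw [indicator_of_notMem hm]
      exact zero_le
  calc _ ≤ ∫⁻ s : ℝ, ∫⁻ τ : ℝ, (ENNReal.ofReal ‖κ‖ ^ (1 - δ))⁻¹ * (kw (1 - δ / 2) s * kw (1 - δ / 2) τ) :=
        lintegral_mono fun s => lintegral_mono fun τ => hpt s τ
    _ = (ENNReal.ofReal ‖κ‖ ^ (1 - δ))⁻¹ * ∫⁻ s : ℝ, ∫⁻ τ : ℝ, (kw (1 - δ / 2) s * kw (1 - δ / 2) τ) := by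
        rw [← lintegral_const_mul]
        · apply lintegral_congr
          intro s
          rw [lintegral_const_mul]
          exact (kw_meas _).const_mul _
        · have : Measurable fun p : ℝ × ℝ => kw (1 - δ / 2) p.1 * kw (1 - δ / 2) p.2 :=
            ((kw_meas _).comp measurable_fst).mul ((kw_meas _).comp measurable_snd)
          exact this.lintegral_prod_right'
    _ ≤ _ := by
        gcongr
        refine (kw_prod (1 - δ / 2) (by linarith) (by linarith)).trans (le_of_eq ?_)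
        congr 2
        have : δ ≠ 0 := hδ0.ne'
        rw [show (1 : ℝ) - (1 - δ / 2) = δ / 2 by ring]
        field_simp
        norm_num

/-- all times -/
theorem near (a b c e : ℂ) (d : ℝ) {g : ℂ → ℂ} {V : ℝ} (h : LV g V) (κ : ℂ)
    (hκ : ∀ l, |(κ * l ^ 2).re| ≤ ‖U a b l‖) (δ : ℝ) (hδ0 : 0 < δ) (hδ1 : δ ≤ 1) :
    ∫⁻ t : ℝ, ∫⁻ l, ‖ac (ft (dens a b c e d g) t) l‖ₑ ^ 2 ≤
      ENNReal.ofReal (K0 V) * ((ENNReal.ofReal ‖κ‖ ^ (1 - δ))⁻¹ * ENNReal.ofReal ((4 / δ) ^ 2)) := by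
  have hadm := dens_adm a b c e d h
  have hm := ac_meas _ hadm.meas
  have hm2 : Measurable fun p : ℝ × ℂ => ‖ac (ft (dens a b c e d g) p.1) p.2‖ₑ ^ 2 := hm.enorm.pow_const 2
  rw [lintegral_lintegral_swap hm2.aemeasurable]
  have hsupp : ∀ l, l ∉ Metric.closedBall (0 : ℂ) 1 →
      ∫⁻ t : ℝ, ‖ac (ft (dens a b c e d g) t) l‖ₑ ^ 2 = 0 := by
    intro l hl
    rw [mem_closedBall_zero_iff, not_le] at hl
    have : ∀ t : ℝ, ‖ac (ft (dens a b c e d g) t) l‖ₑ ^ 2 = 0 := by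
      intro t
      rw [ac_supp (hadm.ft t) l hl]
      simp
    simp only [this, lintegral_zero]
  calc ∫⁻ l, ∫⁻ t : ℝ, ‖ac (ft (dens a b c e d g) t) l‖ₑ ^ 2
      = ∫⁻ l in Metric.closedBall (0 : ℂ) 1, ∫⁻ t : ℝ, ‖ac (ft (dens a b c e d g) t) l‖ₑ ^ 2 := by
        rw [← lintegral_indicator Metric.isClosed_closedBall.measurableSet]
        apply lintegral_congr
        intro l
        by_cases hl : l ∈ Metric.closedBall (0 : ℂ) 1
        · rw [indicator_of_mem hl]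
        · rw [indicator_of_notMem hl, hsupp l hl]
    _ ≤ ∫⁻ l in Metric.closedBall (0 : ℂ) 1, ENNReal.ofReal (K0 V) *
          (ENNReal.ofReal ‖l‖ ^ δ * ENNReal.ofReal |(κ * l ^ 2).re| ^ (1 - δ))⁻¹ := by
        apply lintegral_mono_ae
        have h0 : ∀ᵐ l : ℂ ∂(volume.restrict (Metric.closedBall (0 : ℂ) 1)), l ≠ 0 := by
          apply ae_restrict_of_ae
          rw [ae_iff]
          simp
        filter_upwards [h0] with l hl
        exact time_pt a b c e d h l hl κ (hκ l) δ hδ0.le hδ1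
    _ = ENNReal.ofReal (K0 V) * ∫⁻ l in Metric.closedBall (0 : ℂ) 1,
          (ENNReal.ofReal ‖l‖ ^ δ * ENNReal.ofReal |(κ * l ^ 2).re| ^ (1 - δ))⁻¹ := by
        rw [lintegral_const_mul]
        apply Measurable.inv
        apply Measurable.mul
        · fun_prop
        · apply Measurable.pow_const
          apply ENNReal.measurable_ofReal.comp
          apply Measurable.abs
          exact Complex.measurable_re.comp (by fun_prop)
    _ ≤ _ := by
        gcongr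
        exact sing2 κ δ hδ0 hδ1

/-- the size of the cubic part -/
noncomputable def Nc (a b : ℂ) : ℝ := max ‖b - 3 * a‖ ‖b + 3 * a‖

lemma exists_kappa (a b : ℂ) : ∃ κ : ℂ, ‖κ‖ = Nc a b ∧ ∀ l, |(κ * l ^ 2).re| ≤ ‖U a b l‖ := by
  have h1 : ∀ l : ℂ, ((b - 3 * a) * l ^ 2).re = (U a b l).re := by
    intro l
    unfold U
    simp only [sq, Complex.sub_re, Complex.mul_re, Complex.mul_im, Complex.sub_im, Complex.conj_re,
      Complex.conj_im]
    have h3r : (3 : ℂ).re = 3 := rfl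
    have h3i : (3 : ℂ).im = 0 := rfl
    rw [h3r, h3i]
    ring
  have h2 : ∀ l : ℂ, ((-I * (b + 3 * a)) * l ^ 2).re = (U a b l).im := by
    intro l
    unfold U
    simp only [sq, Complex.add_re, Complex.add_im, Complex.neg_re, Complex.neg_im, Complex.mul_re,
      Complex.mul_im, Complex.sub_im, Complex.conj_re, Complex.conj_im, Complex.I_re, Complex.I_im]
    have h3r : (3 : ℂ).re = 3 := rfl
    have h3i : (3 : ℂ).im = 0 := rfl
    rw [h3r, h3i]
    ring
  rcases le_total ‖b - 3 * a‖ ‖b + 3 * a‖ with h | h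
  · refine ⟨-I * (b + 3 * a), ?_, fun l => ?_⟩
    · rw [norm_mul, norm_neg, Complex.norm_I, one_mul]
      unfold Nc
      rw [max_eq_right h]
    · rw [h2]
      exact Complex.abs_im_le_norm _
  · refine ⟨b - 3 * a, ?_, fun l => ?_⟩
    · unfold Nc
      rw [max_eq_left h]
    · rw [h1]
      exact Complex.abs_re_le_norm _

lemma Nc_a (a b : ℂ) : 3 * ‖a‖ ≤ Nc a b := by
  have h1 : ‖(6 : ℂ) * a‖ ≤ ‖b + 3 * a‖ + ‖b - 3 * a‖ := by
    have : (6 : ℂ) * a = (b + 3 * a) - (b - 3 * a) := by ring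
    rw [this]
    exact norm_sub_le _ _
  rw [norm_mul, show ‖(6 : ℂ)‖ = 6 by simp] at h1
  have h2 : ‖b - 3 * a‖ ≤ Nc a b := le_max_left _ _
  have h3 : ‖b + 3 * a‖ ≤ Nc a b := le_max_right _ _
  linarith

lemma Nc_b (a b : ℂ) : ‖b‖ ≤ Nc a b := by
  have h1 : ‖(2 : ℂ) * b‖ ≤ ‖b + 3 * a‖ + ‖b - 3 * a‖ := by
    have : (2 : ℂ) * b = (b + 3 * a) + (b - 3 * a) := by ring
    rw [this]
    exact norm_add_le _ _
  rw [norm_mul, show ‖(2 : ℂ)‖ = 2 by simp] at h1
  have h2 : ‖b - 3 * a‖ ≤ Nc a b := le_max_left _ _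
  have h3 : ‖b + 3 * a‖ ≤ Nc a b := le_max_right _ _
  linarith

end Pool.Agent.Y250.CT
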