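import Mathlib
import Pool.Agent.Y250.CT.A7
set_option autoImplicit false

/-! The far region. -/

namespace Pool.Agent.Y250.CT

open MeasureTheory Set Complex Filter Topology
open scoped ENNReal NNReal ComplexConjugate FourierTransform

lemma far_pt (a b c e : ℂ) (d : ℝ) {g : ℂ → ℂ} {V : ℝ} (h : LV g V) (l : ℂ) (hl1 : ‖l‖ ≤ 1)
    (hv0 : c * l + d * conj l ≠ 0) (hv : 64 * Nc a b * ‖l‖ ≤ ‖c * l + d * conj l‖) :
    ‖ac (dens a b c e d g) l‖ ≤ 192 * V ^ 2 * ‖c * l + d * conj l‖⁻¹ := by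
  set v := c * l + d * conj l with hvd
  set N := Nc a b with hN
  have hNa : 3 * ‖a‖ ≤ N := Nc_a a b
  have hNb : ‖b‖ ≤ N := Nc_b a b
  have hN0 : 0 ≤ N := (norm_nonneg b).trans hNb
  have hvp : 0 < ‖v‖ := norm_pos_iff.mpr hv0
  have hl0 := norm_nonneg l
  set w := wc a b c d l with hw
  have hwv : ‖w - v‖ ≤ 4 * N * ‖l‖ := by
    have e1 : w - v = 3 * a * l ^ 2 + 2 * b * l * conj l + conj b * conj l ^ 2 := by
      rw [hw, hvd]
      unfold wc
      ring
    rw [e1]
    have h1 : ‖3 * a * l ^ 2 + 2 * b * l * conj l + conj b * conj l ^ 2‖ ≤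
        3 * ‖a‖ * ‖l‖ ^ 2 + 2 * ‖b‖ * ‖l‖ * ‖l‖ + ‖b‖ * ‖l‖ ^ 2 := by
      refine (norm_add₃_le).trans (le_of_eq ?_)
      simp only [norm_mul, norm_pow, RCLike.norm_conj, show ‖(3 : ℂ)‖ = 3 by simp,
        show ‖(2 : ℂ)‖ = 2 by simp]
    refine h1.trans ?_
    have h2 : ‖l‖ ^ 2 ≤ ‖l‖ := by nlinarith
    calc 3 * ‖a‖ * ‖l‖ ^ 2 + 2 * ‖b‖ * ‖l‖ * ‖l‖ + ‖b‖ * ‖l‖ ^ 2 = (3 * ‖a‖ + 3 * ‖b‖) * ‖l‖ ^ 2 := by ring
      _ ≤ (4 * N) * ‖l‖ := by
          apply mul_le_mul (by linarith) h2 (sq_nonneg _) (by linarith)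
  have hNl : 0 ≤ N * ‖l‖ := by positivity
  have hwge : ‖v‖ - 4 * N * ‖l‖ ≤ ‖w‖ := by
    have := norm_sub_norm_le v w
    rw [norm_sub_rev] at this
    linarith
  have hw2 : ‖v‖ / 2 ≤ ‖w‖ := by linarith
  have hw60 : 60 * (N * ‖l‖) ≤ ‖w‖ := by linarith
  have hwp : 0 < ‖w‖ := by linarith
  set z : ℂ := I * conj w / ‖w‖ with hz
  have hz1 : ‖z‖ = 1 := by
    rw [hz, norm_div, norm_mul, Complex.norm_I, one_mul, RCLike.norm_conj, Complex.norm_real, norm_norm,
      div_self hwp.ne']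
  have hwz : w * z = ‖w‖ * I := by
    have hn : (‖w‖ : ℂ) ≠ 0 := by exact_mod_cast hwp.ne'
    have h1 : w * conj w = (‖w‖ : ℂ) ^ 2 := by
      rw [Complex.mul_conj, Complex.normSq_eq_norm_sq]
      push_cast
      ring
    calc w * z = I * (w * conj w) / ‖w‖ := by rw [hz]; ring
      _ = _ := by rw [h1]; field_simp
  rw [ac_dens, norm_mul, norm_ee, one_mul, slice _ (prod_int h l _ (by fun_prop)) z hz1]
  set A' : ℂ := (3 * a * l + b * conj l) * z ^ 2 with hA'
  have hA'n : ‖A'‖ ≤ 2 * (N * ‖l‖) := by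
    rw [hA', norm_mul, norm_pow, hz1, one_pow, mul_one]
    refine (norm_add_le _ _).trans ?_
    simp only [norm_mul, RCLike.norm_conj, show ‖(3 : ℂ)‖ = 3 by simp]
    nlinarith
  set β : ℝ := 2 * (b * l).re - A'.re with hβ
  have hβn : |β| ≤ 4 * (N * ‖l‖) := by
    have h1 : |(b * l).re| ≤ N * ‖l‖ := by
      refine (Complex.abs_re_le_norm _).trans ?_
      rw [norm_mul]
      gcongr
    have h2 : |A'.re| ≤ 2 * (N * ‖l‖) := (Complex.abs_re_le_norm _).trans hA'n
    rw [abs_le] at h1 h2 ⊢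
    constructor <;> linarith [h1.1, h1.2, h2.1, h2.2]
  have hline : ∀ s τ : ℝ, ((3 * a * l + b * conj l) * (z * (s + τ * I)) ^ 2).re +
      2 * (b * l).re * ‖z * (s + τ * I)‖ ^ 2 + (w * (z * (s + τ * I))).re =
      (A'.re + 2 * (b * l).re) * s ^ 2 + (β * τ ^ 2 + (-(2 * A'.im * s + ‖w‖)) * τ) := by
    intro s τ
    rw [norm_pt z hz1]
    have e1 : (3 * a * l + b * conj l) * (z * (s + τ * I)) ^ 2 = A' * (s + τ * I) ^ 2 := by
      rw [hA']; ring
    have e2 : w * (z * (s + τ * I)) = (‖w‖ : ℂ) * I * (s + τ * I) := by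
      rw [← hwz]; ring
    rw [e1, e2, hβ]
    simp only [sq, Complex.add_re, Complex.mul_re, Complex.mul_im, Complex.add_im,
      Complex.ofReal_re, Complex.ofReal_im, Complex.I_re, Complex.I_im]
    ring
  have hin : ∀ s : ℝ, ‖∫ τ : ℝ, ee (((3 * a * l + b * conj l) * (z * (s + τ * I)) ^ 2).re +
      2 * (b * l).re * ‖z * (s + τ * I)‖ ^ 2 + (w * (z * (s + τ * I))).re) *
      (g (z * (s + τ * I) + l) * conj (g (z * (s + τ * I))))‖ ≤
      (Icc (-(1 / 2) : ℝ) (1 / 2)).indicator (fun _ => 192 * V ^ 2 * ‖v‖⁻¹) s := by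
    intro s
    by_cases hs : s ∈ Icc (-(1 / 2) : ℝ) (1 / 2)
    · rw [indicator_of_mem hs]
      have e3 : ∀ τ : ℝ, ee (((3 * a * l + b * conj l) * (z * (s + τ * I)) ^ 2).re +
          2 * (b * l).re * ‖z * (s + τ * I)‖ ^ 2 + (w * (z * (s + τ * I))).re) *
          (g (z * (s + τ * I) + l) * conj (g (z * (s + τ * I)))) =
          ee ((A'.re + 2 * (b * l).re) * s ^ 2) * ((g (z * (s + τ * I) + l) *
            conj (g (z * (s + τ * I)))) * qp β (-(2 * A'.im * s + ‖w‖)) τ) := by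
        intro τ
        rw [hline, ee_add]
        have : ee (β * τ ^ 2 + (-(2 * A'.im * s + ‖w‖)) * τ) = qp β (-(2 * A'.im * s + ‖w‖)) τ := rfl
        rw [this]
        ring
      simp only [e3]
      rw [integral_const_mul, norm_mul, norm_ee, one_mul]
      set G : ℝ → ℂ := fun τ => g (z * (s + τ * I) + l) * conj (g (z * (s + τ * I))) with hG
      have hVG := h.prod (z * s) (z * I) l
      have e1 : (fun τ : ℝ => g (z * s + τ * (z * I) + l) * conj (g (z * s + τ * (z * I)))) = G := by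
        ext τ
        have : z * s + τ * (z * I) = z * (s + τ * I) := by ring
        simp only [hG, this]
      rw [e1] at hVG
      have hsG : ∀ τ, 1 < |τ| → G τ = 0 := by
        intro τ hτ
        simp only [hG]
        rw [g_zero h z hz1 s τ (Or.inr (by linarith)), map_zero, mul_zero]
      have e4 : ∫ τ : ℝ, G τ * qp β (-(2 * A'.im * s + ‖w‖)) τ =
          ∫ τ in Icc (-1 : ℝ) 1, G τ * qp β (-(2 * A'.im * s + ‖w‖)) τ := by
        symm
        apply setIntegral_eq_integral_of_forall_compl_eq_zero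
        intro τ hτ
        have : 1 < |τ| := by
          by_contra hc
          push Not at hc
          exact hτ (abs_le.mp hc)
        rw [hsG τ this, zero_mul]
      have e5 : ∫ τ : ℝ, (g (z * (s + τ * I) + l) * conj (g (z * (s + τ * I)))) *
          qp β (-(2 * A'.im * s + ‖w‖)) τ = ∫ τ : ℝ, G τ * qp β (-(2 * A'.im * s + ‖w‖)) τ := rfl
      rw [e5, e4]
      set p : ℝ := -(2 * A'.im * s + ‖w‖) with hp
      have hp2 : ‖w‖ / 2 ≤ |p| := by
        have h1 : |A'.im| ≤ 2 * (N * ‖l‖) := (Complex.abs_im_le_norm _).trans hA'n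
        have h2 : |s| ≤ 1 / 2 := abs_le.mpr hs
        have h3 : |2 * A'.im * s| ≤ 2 * (N * ‖l‖) := by
          rw [abs_mul, abs_mul, show |(2 : ℝ)| = 2 by norm_num]
          calc 2 * |A'.im| * |s| ≤ 2 * (2 * (N * ‖l‖)) * (1 / 2) := by gcongr
            _ = _ := by ring
        rw [hp, abs_neg]
        have h4 : ‖w‖ - 2 * (N * ‖l‖) ≤ 2 * A'.im * s + ‖w‖ := by
          rw [abs_le] at h3
          linarith [h3.1]
        refine le_trans ?_ (le_abs_self _)
        linarith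
      have hp0 : p ≠ 0 := by
        intro h0
        rw [h0, abs_zero] at hp2
        linarith
      have h6 := (osc G (2 * V ^ 2) (by positivity) hVG hsG β p).2.2 hp0 (by linarith)
      refine h6.trans ?_
      have hpp : 0 < |p| := abs_pos.2 hp0
      have h7 : |p|⁻¹ ≤ 4 * ‖v‖⁻¹ := by
        rw [inv_le_comm₀ hpp (by positivity), mul_inv, inv_inv]
        linarith
      have h8 : 0 ≤ V ^ 2 := sq_nonneg V
      calc 24 * (2 * V ^ 2) * |p|⁻¹ ≤ 24 * (2 * V ^ 2) * (4 * ‖v‖⁻¹) := by gcongr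
        _ = _ := by ring
    · rw [indicator_of_notMem hs]
      have hs' : 1 / 2 < |s| := by
        by_contra hc
        push Not at hc
        exact hs (abs_le.mp hc)
      have : ∀ τ : ℝ, ee (((3 * a * l + b * conj l) * (z * (s + τ * I)) ^ 2).re +
          2 * (b * l).re * ‖z * (s + τ * I)‖ ^ 2 + (w * (z * (s + τ * I))).re) *
          (g (z * (s + τ * I) + l) * conj (g (z * (s + τ * I)))) = 0 := by
        intro τ
        rw [g_zero h z hz1 s τ (Or.inl hs'), map_zero, mul_zero, mul_zero]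
      simp only [this, integral_zero, norm_zero]
      exact le_rfl
  have hi : Integrable ((Icc (-(1 / 2) : ℝ) (1 / 2)).indicator (fun _ => 192 * V ^ 2 * ‖v‖⁻¹)) := by
    rw [integrable_indicator_iff measurableSet_Icc]
    exact integrableOn_const (by rw [Real.volume_Icc]; exact ENNReal.ofReal_ne_top)
  refine (norm_integral_le_of_norm_le hi (ae_of_all _ hin)).trans (le_of_eq ?_)
  rw [integral_indicator measurableSet_Icc, setIntegral_const]
  unfold Measure.real
  rw [Real.volume_Icc]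
  norm_num

end Pool.Agent.Y250.CT
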