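import Mathlib
import Pool.Agent.Y250.CT.A8
set_option autoImplicit false

/-! The far region: the bound for the fixed time norm. -/

namespace Pool.Agent.Y250.CT

open MeasureTheory Set Complex Filter Topology
open scoped ENNReal NNReal ComplexConjugate FourierTransform

/-- one dimensional comparison -/
lemma far1 (δ τ p : ℝ) (hδ0 : 0 ≤ δ) (hδ1 : δ ≤ 1) (hτ : 0 ≤ τ) (hp : |p| ≤ 1) :
    ENNReal.ofReal ((1 + τ * |p|)⁻¹) ≤
      (ENNReal.ofReal (1 + τ) ^ (1 - δ))⁻¹ * (ENNReal.ofReal |p| ^ (1 - δ))⁻¹ := by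
  have hp0 := abs_nonneg p
  have h1 : 1 ≤ 1 + τ * |p| := by nlinarith [mul_nonneg hτ hp0]
  have hd : 0 ≤ 1 - δ := by linarith
  rw [ENNReal.ofReal_inv_of_pos (by linarith), ← ENNReal.mul_inv
    (Or.inr (ENNReal.rpow_lt_top_of_nonneg hd ENNReal.ofReal_ne_top).ne)
    (Or.inl (ENNReal.rpow_lt_top_of_nonneg hd ENNReal.ofReal_ne_top).ne), ENNReal.inv_le_inv,
    ← ENNReal.mul_rpow_of_nonneg _ _ hd, ← ENNReal.ofReal_mul (by linarith)]
  calc ENNReal.ofReal ((1 + τ) * |p|) ^ (1 - δ) ≤ ENNReal.ofReal (1 + τ * |p|) ^ (1 - δ) := by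
        gcongr
        nlinarith
    _ ≤ ENNReal.ofReal (1 + τ * |p|) ^ (1 : ℝ) := by
        apply ENNReal.rpow_le_rpow_of_exponent_le _ (by linarith)
        rw [← ENNReal.ofReal_one]
        exact ENNReal.ofReal_le_ofReal h1
    _ = _ := ENNReal.rpow_one _

lemma min_prod (x y : ℝ) (hx : 0 ≤ x) (hy : 0 ≤ y) (T M : ℝ) (hM : 0 ≤ M) (h1 : T ≤ M)
    (h2 : T * (x ^ 2 + y ^ 2) ≤ M) : T ≤ 4 * M * ((1 + x)⁻¹ * (1 + y)⁻¹) := by
  have hx1 : 0 < 1 + x := by linarith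
  have hy1 : 0 < 1 + y := by linarith
  rw [← mul_inv, ← div_eq_mul_inv, le_div_iff₀ (by positivity)]
  by_cases hT : T ≤ 0
  · have : T * ((1 + x) * (1 + y)) ≤ 0 := mul_nonpos_of_nonpos_of_nonneg hT (by positivity)
    linarith
  push Not at hT
  have e2 : (1 + x) * (1 + y) ≤ 2 * (1 + (x ^ 2 + y ^ 2)) := by
    nlinarith [sq_nonneg (x - y), sq_nonneg (x - 1 / 2), sq_nonneg (y - 1 / 2), sq_nonneg (x + y - 1)]
  calc T * ((1 + x) * (1 + y)) ≤ T * (2 * (1 + (x ^ 2 + y ^ 2))) := by gcongr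
    _ = 2 * T + 2 * (T * (x ^ 2 + y ^ 2)) := by ring
    _ ≤ _ := by linarith

theorem far (a b c e : ℂ) (d : ℝ) {g : ℂ → ℂ} {V : ℝ} (h : LV g V) (δ : ℝ) (hδ0 : 0 < δ) (hδ1 : δ ≤ 1)
    (h1 : 64 * Nc a b ≤ |d + ‖c‖|) (h2 : 64 * Nc a b ≤ |d - ‖c‖|) :
    ∫⁻ l, ‖ac (dens a b c e d g) l‖ₑ ^ 2 ≤
      ENNReal.ofReal (4 * (192 * V ^ 2) ^ 2 * (2 / δ) ^ 2) *
        ((ENNReal.ofReal (1 + |d + ‖c‖|) ^ (1 - δ))⁻¹ * (ENNReal.ofReal (1 + |d - ‖c‖|) ^ (1 - δ))⁻¹) := by
  have hadm := dens_adm a b c e d h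
  set τ1 := |d + ‖c‖| with hτ1
  set τ2 := |d - ‖c‖| with hτ2
  have hτ10 : 0 ≤ τ1 := abs_nonneg _
  have hτ20 : 0 ≤ τ2 := abs_nonneg _
  have hN0 : 0 ≤ Nc a b := (norm_nonneg b).trans (Nc_b a b)
  obtain ⟨z, hz, hcz⟩ := unit_rot c 1 norm_one
  rw [mul_one] at hcz
  have hmeas : Measurable fun l => ‖ac (dens a b c e d g) l‖ₑ ^ 2 := by
    have h3 := (ac_meas _ hadm.meas).comp (measurable_prodMk_left (x := (0 : ℝ)))
    have e1 : ft (dens a b c e d g) 0 = dens a b c e d g := by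
      rw [ft_dens]; simp
    have h4 : Measurable fun l => ac (dens a b c e d g) l := by
      have : (fun l => ac (dens a b c e d g) l) =
          ((fun p : ℝ × ℂ => ac (ft (dens a b c e d g) p.1) p.2) ∘ Prod.mk 0) := by
        ext l
        simp only [Function.comp, e1]
      rw [this]
      exact h3
    exact h4.enorm.pow_const 2
  rw [lslice _ hmeas z hz]
  have hzz : z * conj z = 1 := by
    rw [Complex.mul_conj, Complex.normSq_eq_norm_sq, hz]
    simp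
  have hpt : ∀ p q : ℝ, ‖ac (dens a b c e d g) (z * (p + q * I))‖ₑ ^ 2 ≤
      ENNReal.ofReal (4 * (192 * V ^ 2) ^ 2) *
        ((ENNReal.ofReal (1 + τ1) ^ (1 - δ))⁻¹ * (ENNReal.ofReal (1 + τ2) ^ (1 - δ))⁻¹) *
        (kw (1 - δ) p * kw (1 - δ) q) := by
    intro p q
    set l := z * (p + q * I) with hl
    have hn := norm_pt z hz p q
    rw [← hl] at hn
    by_cases hl1 : ‖l‖ ≤ 1
    · have hn1 : p ^ 2 + q ^ 2 ≤ 1 := by
        rw [← hn]
        exact pow_le_one₀ (norm_nonneg _) hl1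
      have hp : |p| ≤ 1 := by
        rw [← sq_le_one_iff_abs_le_one]
        nlinarith [sq_nonneg q]
      have hq : |q| ≤ 1 := by
        rw [← sq_le_one_iff_abs_le_one]
        nlinarith [sq_nonneg p]
      have hv : ‖c * l + d * conj l‖ ^ 2 = (τ1 * |p|) ^ 2 + (τ2 * |q|) ^ 2 := by
        have e1 : z * (c * l + d * conj l) = ((‖c‖ + d) * p : ℝ) + ((‖c‖ - d) * q : ℝ) * I := by
          have e2 : conj l = conj z * (p - q * I) := by
            rw [hl, map_mul, map_add, map_mul, Complex.conj_ofReal, Complex.conj_ofReal, Complex.conj_I]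
            ring
          rw [e2]
          calc z * (c * l + d * (conj z * (p - q * I))) =
                (c * z ^ 2) * (p + q * I) + d * (z * conj z) * (p - q * I) := by rw [hl]; ring
            _ = _ := by rw [hcz, hzz]; push_cast; ring
        have e3 : ‖c * l + d * conj l‖ = ‖z * (c * l + d * conj l)‖ := by rw [norm_mul, hz, one_mul]
        rw [e3, e1, nsq]
        simp only [Complex.add_re, Complex.mul_re, Complex.ofReal_re, Complex.ofReal_im, Complex.I_re,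
          Complex.I_im, Complex.add_im, Complex.mul_im]
        rw [mul_pow τ1, mul_pow τ2, hτ1, hτ2, sq_abs, sq_abs, sq_abs, sq_abs]
        ring
      have hvl : 64 * Nc a b * ‖l‖ ≤ ‖c * l + d * conj l‖ := by
        rw [← pow_le_pow_iff_left₀ (by positivity) (norm_nonneg _) two_ne_zero, hv, mul_pow, hn]
        have a1 : (64 * Nc a b) ^ 2 ≤ τ1 ^ 2 := pow_le_pow_left₀ (by positivity) h1 2
        have a2 : (64 * Nc a b) ^ 2 ≤ τ2 ^ 2 := pow_le_pow_left₀ (by positivity) h2 2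
        rw [mul_pow τ1, mul_pow τ2, sq_abs p, sq_abs q]
        nlinarith [mul_le_mul_of_nonneg_right a1 (sq_nonneg p), mul_le_mul_of_nonneg_right a2 (sq_nonneg q)]
      have hT1 : ‖ac (dens a b c e d g) l‖ ^ 2 ≤ (192 * V ^ 2) ^ 2 := by
        apply pow_le_pow_left₀ (norm_nonneg _)
        refine (hadm.ac_bd l).trans ?_
        nlinarith [sq_nonneg V]
      have hT2 : ‖ac (dens a b c e d g) l‖ ^ 2 * ((τ1 * |p|) ^ 2 + (τ2 * |q|) ^ 2) ≤ (192 * V ^ 2) ^ 2 := by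
        rw [← hv]
        by_cases hv0 : c * l + d * conj l = 0
        · rw [hv0, norm_zero]
          have : 0 ≤ (192 * V ^ 2) ^ 2 := sq_nonneg _
          simpa using this
        · have h5 := far_pt a b c e d h l hl1 hv0 hvl
          have h6 : 0 < ‖c * l + d * conj l‖ := norm_pos_iff.mpr hv0
          calc ‖ac (dens a b c e d g) l‖ ^ 2 * ‖c * l + d * conj l‖ ^ 2
              ≤ (192 * V ^ 2 * ‖c * l + d * conj l‖⁻¹) ^ 2 * ‖c * l + d * conj l‖ ^ 2 := by gcongr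
            _ = _ := by
                rw [mul_pow (192 * V ^ 2), inv_pow, mul_assoc, inv_mul_cancel₀ (by positivity), mul_one]
      have h7 := min_prod (τ1 * |p|) (τ2 * |q|) (by positivity) (by positivity) _ _ (by positivity) hT1 hT2
      have hkp : kw (1 - δ) p = (ENNReal.ofReal |p| ^ (1 - δ))⁻¹ := by
        unfold kw
        rw [indicator_of_mem (show p ∈ Icc (-1 : ℝ) 1 from abs_le.mp hp)]
      have hkq : kw (1 - δ) q = (ENNReal.ofReal |q| ^ (1 - δ))⁻¹ := by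
        unfold kw
        rw [indicator_of_mem (show q ∈ Icc (-1 : ℝ) 1 from abs_le.mp hq)]
      rw [hkp, hkq, ← ofReal_norm, ← ENNReal.ofReal_pow (norm_nonneg _)]
      calc ENNReal.ofReal (‖ac (dens a b c e d g) l‖ ^ 2)
          ≤ ENNReal.ofReal (4 * (192 * V ^ 2) ^ 2 * ((1 + τ1 * |p|)⁻¹ * (1 + τ2 * |q|)⁻¹)) :=
            ENNReal.ofReal_le_ofReal h7
        _ = ENNReal.ofReal (4 * (192 * V ^ 2) ^ 2) * (ENNReal.ofReal ((1 + τ1 * |p|)⁻¹) *
              ENNReal.ofReal ((1 + τ2 * |q|)⁻¹)) := by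
            rw [ENNReal.ofReal_mul (p := 4 * (192 * V ^ 2) ^ 2) (by positivity),
              ENNReal.ofReal_mul (p := (1 + τ1 * |p|)⁻¹) (by positivity)]
        _ ≤ ENNReal.ofReal (4 * (192 * V ^ 2) ^ 2) *
              (((ENNReal.ofReal (1 + τ1) ^ (1 - δ))⁻¹ * (ENNReal.ofReal |p| ^ (1 - δ))⁻¹) *
              ((ENNReal.ofReal (1 + τ2) ^ (1 - δ))⁻¹ * (ENNReal.ofReal |q| ^ (1 - δ))⁻¹)) := by
            gcongr
            · exact far1 δ τ1 p hδ0.le hδ1 hτ10 hp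
            · exact far1 δ τ2 q hδ0.le hδ1 hτ20 hq
        _ = _ := by ring
    · push Not at hl1
      have : ac (dens a b c e d g) l = 0 := ac_supp hadm l hl1
      rw [this]
      simp
  calc _ ≤ ∫⁻ p : ℝ, ∫⁻ q : ℝ, ENNReal.ofReal (4 * (192 * V ^ 2) ^ 2) *
        ((ENNReal.ofReal (1 + τ1) ^ (1 - δ))⁻¹ * (ENNReal.ofReal (1 + τ2) ^ (1 - δ))⁻¹) *
        (kw (1 - δ) p * kw (1 - δ) q) := lintegral_mono fun p => lintegral_mono fun q => hpt p q
    _ = ENNReal.ofReal (4 * (192 * V ^ 2) ^ 2) *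
        ((ENNReal.ofReal (1 + τ1) ^ (1 - δ))⁻¹ * (ENNReal.ofReal (1 + τ2) ^ (1 - δ))⁻¹) *
        ∫⁻ p : ℝ, ∫⁻ q : ℝ, kw (1 - δ) p * kw (1 - δ) q := by
        rw [← lintegral_const_mul]
        · apply lintegral_congr
          intro s
          rw [lintegral_const_mul]
          exact (kw_meas _).const_mul _
        · have : Measurable fun p : ℝ × ℝ => kw (1 - δ) p.1 * kw (1 - δ) p.2 :=
            ((kw_meas _).comp measurable_fst).mul ((kw_meas _).comp measurable_snd)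
          exact this.lintegral_prod_right'
    _ ≤ ENNReal.ofReal (4 * (192 * V ^ 2) ^ 2) *
        ((ENNReal.ofReal (1 + τ1) ^ (1 - δ))⁻¹ * (ENNReal.ofReal (1 + τ2) ^ (1 - δ))⁻¹) *
        ENNReal.ofReal ((2 / δ) ^ 2) := by
        gcongr
        refine (kw_prod (1 - δ) (by linarith) (by linarith)).trans (le_of_eq ?_)
        congr 3
        ring
    _ = _ := by
        rw [ENNReal.ofReal_mul (p := 4 * (192 * V ^ 2) ^ 2) (by positivity)]
        ring

end Pool.Agent.Y250.CT
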