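import Mathlib
import Pool.Agent.Y250.CT.A9
set_option autoImplicit false

/-! Integration in time and the space time estimate. -/

namespace Pool.Agent.Y250.CT

open MeasureTheory Set Complex Filter Topology
open scoped ENNReal NNReal ComplexConjugate FourierTransform

lemma Ir_fin (r : ℝ) (hr : 1 < r) : ∫⁻ x : ℝ, (ENNReal.ofReal (1 + |x|) ^ r)⁻¹ < ⊤ := by
  have h := integrable_one_add_norm (E := ℝ) (μ := volume) (r := r) (by simpa using hr)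
  have h2 := h.lintegral_lt_top
  refine lt_of_le_of_lt (le_of_eq ?_) h2
  apply lintegral_congr
  intro x
  have hx : 0 < 1 + |x| := by positivity
  rw [Real.norm_eq_abs, ENNReal.ofReal_rpow_of_pos hx, Real.rpow_neg hx.le,
    ENNReal.ofReal_inv_of_pos (Real.rpow_pos_of_pos hx r)]

lemma Ir_shift (r s : ℝ) : ∫⁻ t : ℝ, (ENNReal.ofReal (1 + |s - 2 * t|) ^ r)⁻¹ ≤
    ∫⁻ x : ℝ, (ENNReal.ofReal (1 + |x|) ^ r)⁻¹ := by
  have h := lint_affine (-2) s (by norm_num) (fun x => (ENNReal.ofReal (1 + |x|) ^ r)⁻¹) (by fun_prop)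
  have e : ∀ t : ℝ, (ENNReal.ofReal (1 + |s - 2 * t|) ^ r)⁻¹ = (ENNReal.ofReal (1 + |-2 * t + s|) ^ r)⁻¹ := by
    intro t
    have : s - 2 * t = -2 * t + s := by ring
    rw [this]
  simp only [e]
  rw [h]
  calc _ ≤ 1 * ∫⁻ x : ℝ, (ENNReal.ofReal (1 + |x|) ^ r)⁻¹ := by
        gcongr
        rw [ENNReal.ofReal_le_one]
        norm_num
    _ = _ := one_mul _

/-- the fourth power of the fixed time norm -/
noncomputable def aa (f : ℂ → ℂ) (t : ℝ) : ℝ≥0∞ := ∫⁻ l, ‖ac (ft f t) l‖ₑ ^ 2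

lemma aa_meas (f : ℂ → ℂ) (hf : Measurable f) : Measurable (aa f) := by
  have h := ac_meas f hf
  have h2 : Measurable fun p : ℝ × ℂ => ‖ac (ft f p.1) p.2‖ₑ ^ 2 := h.enorm.pow_const 2
  exact h2.lintegral_prod_right'

/-- Hölder on a set of finite measure -/
lemma holder_set (F : ℝ → ℝ≥0∞) (hF : Measurable F) (E : Set ℝ) (θ : ℝ) (h0 : 0 ≤ θ) (h1 : θ ≤ 1) :
    ∫⁻ t in E, F t ^ θ ≤ (∫⁻ t in E, F t) ^ θ * (volume E) ^ (1 - θ) := by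
  have h := ENNReal.lintegral_mul_norm_pow_le (μ := volume.restrict E) hF.aemeasurable
    (measurable_const (a := (1 : ℝ≥0∞))).aemeasurable (p := θ) (q := 1 - θ) h0 (by linarith) (by ring)
  simp only [ENNReal.one_rpow, mul_one, lintegral_one, Measure.restrict_apply_univ] at h
  exact h

lemma vol_near (s M : ℝ) : volume {t : ℝ | |s - 2 * t| < M} ≤ ENNReal.ofReal M := by
  have hsub : {t : ℝ | |s - 2 * t| < M} ⊆ Icc (s / 2 - M / 2) (s / 2 + M / 2) := by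
    intro t ht
    have h1 : |s - 2 * t| < M := ht
    rw [abs_lt] at h1
    exact ⟨by linarith [h1.2], by linarith [h1.1]⟩
  refine (measure_mono hsub).trans (le_of_eq ?_)
  rw [Real.volume_Icc]
  congr 1
  ring

lemma near_time (θ : ℝ) (hθ0 : 1 / 2 < θ) (hθ1 : θ < 1) : ∃ C : ℝ≥0∞, C ≠ ⊤ ∧
    ∀ (a b c e : ℂ) (d : ℝ) (g : ℂ → ℂ) (V : ℝ), LV g V →
      (∫⁻ t, aa (dens a b c e d g) t) ^ θ * (ENNReal.ofReal (128 * Nc a b)) ^ (1 - θ) ≤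
        C * (ENNReal.ofReal V ^ (4 : ℝ)) ^ θ := by
  set δ0 : ℝ := 2 * θ - 1 with hδ0
  have hδ0p : 0 < δ0 := by linarith
  have hδ01 : δ0 ≤ 1 := by linarith
  set K : ℝ := 16 * Real.pi * 48 ^ 2 * (4 / δ0) ^ 2 with hK
  refine ⟨ENNReal.ofReal K ^ θ * ENNReal.ofReal 128 ^ (1 - θ), ?_, ?_⟩
  · exact ENNReal.mul_ne_top (ENNReal.rpow_lt_top_of_nonneg (by linarith) ENNReal.ofReal_ne_top).ne
      (ENNReal.rpow_lt_top_of_nonneg (by linarith) ENNReal.ofReal_ne_top).ne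
  intro a b c e d g V h
  obtain ⟨κ, hκN, hκ⟩ := exists_kappa a b
  have hV := h.nonneg
  have hN0 : 0 ≤ Nc a b := (norm_nonneg b).trans (Nc_b a b)
  set N := Nc a b with hN
  have gen : ∀ δ : ℝ, δ0 ≤ δ → δ ≤ 1 → ∫⁻ t, aa (dens a b c e d g) t ≤
      ENNReal.ofReal K * ENNReal.ofReal V ^ (4 : ℝ) * (ENNReal.ofReal N ^ (1 - δ))⁻¹ := by
    intro δ hδ1 hδ2
    have h1 := near a b c e d h κ hκ δ (by linarith) hδ2
    rw [hκN] at h1
    refine h1.trans ?_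
    have e1 : ENNReal.ofReal (K0 V) * ((ENNReal.ofReal N ^ (1 - δ))⁻¹ * ENNReal.ofReal ((4 / δ) ^ 2)) =
        ENNReal.ofReal (K0 V * (4 / δ) ^ 2) * (ENNReal.ofReal N ^ (1 - δ))⁻¹ := by
      rw [ENNReal.ofReal_mul (K0_nonneg V)]
      ring
    rw [e1]
    gcongr
    rw [ENNReal.ofReal_rpow_of_nonneg hV (by norm_num), ← ENNReal.ofReal_mul (by positivity)]
    apply ENNReal.ofReal_le_ofReal
    rw [hK, K0]
    have h2 : (4 / δ) ^ 2 ≤ (4 / δ0) ^ 2 := by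
      apply pow_le_pow_left₀ (by
        have : 0 < δ := by linarith
        positivity)
      exact div_le_div_of_nonneg_left (by norm_num) hδ0p hδ1
    have e2 : V ^ (4 : ℝ) = V ^ 4 := by
      rw [← Real.rpow_natCast]
      norm_num
    rw [e2]
    calc 16 * Real.pi * (48 * V ^ 2) ^ 2 * (4 / δ) ^ 2 ≤ 16 * Real.pi * (48 * V ^ 2) ^ 2 * (4 / δ0) ^ 2 := by
          gcongr
      _ = _ := by ring
  have hθ' : 0 ≤ 1 - θ := by linarith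
  have fin : ∀ δ : ℝ, δ0 ≤ δ → δ ≤ 1 →
      ((ENNReal.ofReal N ^ (1 - δ))⁻¹) ^ θ * (ENNReal.ofReal N) ^ (1 - θ) ≤ 1 →
      (∫⁻ t, aa (dens a b c e d g) t) ^ θ * (ENNReal.ofReal (128 * N)) ^ (1 - θ) ≤
        ENNReal.ofReal K ^ θ * ENNReal.ofReal 128 ^ (1 - θ) * (ENNReal.ofReal V ^ (4 : ℝ)) ^ θ := by
    intro δ hδ1 hδ2 hle
    calc (∫⁻ t, aa (dens a b c e d g) t) ^ θ * (ENNReal.ofReal (128 * N)) ^ (1 - θ)
        ≤ (ENNReal.ofReal K * ENNReal.ofReal V ^ (4 : ℝ) * (ENNReal.ofReal N ^ (1 - δ))⁻¹) ^ θ *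
            (ENNReal.ofReal 128 * ENNReal.ofReal N) ^ (1 - θ) := by
          rw [ENNReal.ofReal_mul (by norm_num : (0 : ℝ) ≤ 128)]
          gcongr
          exact gen δ hδ1 hδ2
      _ = ENNReal.ofReal K ^ θ * ENNReal.ofReal 128 ^ (1 - θ) * (ENNReal.ofReal V ^ (4 : ℝ)) ^ θ *
            (((ENNReal.ofReal N ^ (1 - δ))⁻¹) ^ θ * (ENNReal.ofReal N) ^ (1 - θ)) := by
          rw [ENNReal.mul_rpow_of_nonneg _ _ (by linarith), ENNReal.mul_rpow_of_nonneg _ _ (by linarith),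
            ENNReal.mul_rpow_of_nonneg _ _ hθ']
          ring
      _ ≤ ENNReal.ofReal K ^ θ * ENNReal.ofReal 128 ^ (1 - θ) * (ENNReal.ofReal V ^ (4 : ℝ)) ^ θ * 1 := by
          gcongr
      _ = _ := mul_one _
  rcases le_total 1 N with hN1 | hN1
  · apply fin δ0 le_rfl hδ01
    have hNe : (1 : ℝ≥0∞) ≤ ENNReal.ofReal N := by
      rw [← ENNReal.ofReal_one]
      exact ENNReal.ofReal_le_ofReal hN1
    rw [ENNReal.inv_rpow, ← ENNReal.rpow_mul]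
    have h3 : ENNReal.ofReal N ^ (1 - θ) ≤ ENNReal.ofReal N ^ ((1 - δ0) * θ) := by
      apply ENNReal.rpow_le_rpow_of_exponent_le hNe
      rw [hδ0]
      nlinarith
    have h4 : ENNReal.ofReal N ^ ((1 - δ0) * θ) ≠ ⊤ :=
      (ENNReal.rpow_lt_top_of_nonneg (by nlinarith) ENNReal.ofReal_ne_top).ne
    have h5 : ENNReal.ofReal N ^ ((1 - δ0) * θ) ≠ 0 := by
      have : (1 : ℝ≥0∞) ≤ ENNReal.ofReal N ^ ((1 - δ0) * θ) := by
        calc (1 : ℝ≥0∞) = 1 ^ ((1 - δ0) * θ) := by rw [ENNReal.one_rpow]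
          _ ≤ _ := ENNReal.rpow_le_rpow hNe (by nlinarith)
      exact (lt_of_lt_of_le one_pos this).ne'
    calc (ENNReal.ofReal N ^ ((1 - δ0) * θ))⁻¹ * ENNReal.ofReal N ^ (1 - θ)
        ≤ (ENNReal.ofReal N ^ ((1 - δ0) * θ))⁻¹ * ENNReal.ofReal N ^ ((1 - δ0) * θ) := by gcongr
      _ = 1 := ENNReal.inv_mul_cancel h5 h4
  · apply fin 1 hδ01 le_rfl
    rw [sub_self, ENNReal.rpow_zero, inv_one, ENNReal.one_rpow, one_mul]
    calc ENNReal.ofReal N ^ (1 - θ) ≤ 1 ^ (1 - θ) := by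
          gcongr
          rw [ENNReal.ofReal_le_one]
          exact hN1
      _ = 1 := ENNReal.one_rpow _

lemma ms_far (N u v : ℝ) : MeasurableSet {t : ℝ | N ≤ |u - 2 * t| ∧ N ≤ |v - 2 * t|} := by
  have h1 : MeasurableSet {t : ℝ | N ≤ |u - 2 * t|} := measurableSet_le measurable_const (by fun_prop)
  have h2 : MeasurableSet {t : ℝ | N ≤ |v - 2 * t|} := measurableSet_le measurable_const (by fun_prop)
  exact h1.inter h2

lemma far_time (θ : ℝ) (hθ0 : 1 / 2 < θ) (hθ1 : θ < 1) : ∃ C : ℝ≥0∞, C ≠ ⊤ ∧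
    ∀ (a b c e : ℂ) (d : ℝ) (g : ℂ → ℂ) (V : ℝ), LV g V →
      ∫⁻ t in {t : ℝ | 64 * Nc a b ≤ |d + ‖c‖ - 2 * t| ∧ 64 * Nc a b ≤ |d - ‖c‖ - 2 * t|},
        aa (dens a b c e d g) t ^ θ ≤ C * (ENNReal.ofReal V ^ (4 : ℝ)) ^ θ := by
  set δ : ℝ := (2 * θ - 1) / (4 * θ) with hδ
  have hθp : 0 < θ := by linarith
  have hδ0 : 0 < δ := by
    rw [hδ]
    apply div_pos <;> linarith
  have hδ1 : δ ≤ 1 := by
    rw [hδ, div_le_one (by linarith)]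
    linarith
  set s : ℝ := (1 - δ) * θ with hs
  have hs2 : 2 * s = θ + 1 / 2 := by
    rw [hs, hδ]
    field_simp
    ring
  have hs0 : 0 ≤ s := by nlinarith
  set I := ∫⁻ x : ℝ, (ENNReal.ofReal (1 + |x|) ^ (2 * s))⁻¹ with hI
  have hIf : I < ⊤ := Ir_fin (2 * s) (by linarith)
  set K : ℝ := 4 * 192 ^ 2 * (2 / δ) ^ 2 with hK
  refine ⟨ENNReal.ofReal K ^ θ * (I + I), ?_, ?_⟩
  · exact ENNReal.mul_ne_top (ENNReal.rpow_lt_top_of_nonneg hθp.le ENNReal.ofReal_ne_top).ne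
      (ENNReal.add_ne_top.mpr ⟨hIf.ne, hIf.ne⟩)
  intro a b c e d g V h
  have hV := h.nonneg
  have hms : MeasurableSet {t : ℝ | 64 * Nc a b ≤ |d + ‖c‖ - 2 * t| ∧ 64 * Nc a b ≤ |d - ‖c‖ - 2 * t|} :=
    ms_far _ _ _
  have hpt : ∀ t ∈ {t : ℝ | 64 * Nc a b ≤ |d + ‖c‖ - 2 * t| ∧ 64 * Nc a b ≤ |d - ‖c‖ - 2 * t|},
      aa (dens a b c e d g) t ^ θ ≤ ENNReal.ofReal K ^ θ * (ENNReal.ofReal V ^ (4 : ℝ)) ^ θ *
        ((ENNReal.ofReal (1 + |d + ‖c‖ - 2 * t|) ^ (2 * s))⁻¹ +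
          (ENNReal.ofReal (1 + |d - ‖c‖ - 2 * t|) ^ (2 * s))⁻¹) := by
    intro t ht
    obtain ⟨h1, h2⟩ := ht
    have e1 : d + ‖c‖ - 2 * t = (d - 2 * t) + ‖c‖ := by ring
    have e2 : d - ‖c‖ - 2 * t = (d - 2 * t) - ‖c‖ := by ring
    rw [e1] at h1 ⊢
    rw [e2] at h2 ⊢
    have h3 := far a b c e (d - 2 * t) h δ hδ0 hδ1 h1 h2
    unfold aa
    rw [ft_dens]
    set X := ENNReal.ofReal (1 + |(d - 2 * t) + ‖c‖|)
    set Y := ENNReal.ofReal (1 + |(d - 2 * t) - ‖c‖|)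
    have hd : 0 ≤ 1 - δ := by linarith
    have hKV : ENNReal.ofReal (4 * (192 * V ^ 2) ^ 2 * (2 / δ) ^ 2) =
        ENNReal.ofReal K * ENNReal.ofReal V ^ (4 : ℝ) := by
      rw [ENNReal.ofReal_rpow_of_nonneg hV (by norm_num), ← ENNReal.ofReal_mul (by positivity)]
      congr 1
      have e2 : V ^ (4 : ℝ) = V ^ 4 := by
        rw [← Real.rpow_natCast]
        norm_num
      rw [e2, hK]
      ring
    rw [hKV] at h3
    calc (∫⁻ l, ‖ac (dens a b c e (d - 2 * t) g) l‖ₑ ^ 2) ^ θ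
        ≤ (ENNReal.ofReal K * ENNReal.ofReal V ^ (4 : ℝ) * ((X ^ (1 - δ))⁻¹ * (Y ^ (1 - δ))⁻¹)) ^ θ := by
          gcongr
      _ = ENNReal.ofReal K ^ θ * (ENNReal.ofReal V ^ (4 : ℝ)) ^ θ * ((X ^ s)⁻¹ * (Y ^ s)⁻¹) := by
          rw [ENNReal.mul_rpow_of_nonneg _ _ hθp.le, ENNReal.mul_rpow_of_nonneg _ _ hθp.le,
            ENNReal.mul_rpow_of_nonneg _ _ hθp.le, ENNReal.inv_rpow, ENNReal.inv_rpow,
            ← ENNReal.rpow_mul X, ← ENNReal.rpow_mul Y]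
      _ ≤ _ := by
          gcongr
          have hsq : ∀ x : ℝ≥0∞, (x ^ (2 * s))⁻¹ = (x ^ s)⁻¹ * (x ^ s)⁻¹ := by
            intro x
            rw [two_mul, ENNReal.rpow_add_of_nonneg _ _ hs0 hs0]
            by_cases hx : x ^ s = 0
            · rw [hx]
              simp
            · by_cases hx2 : x ^ s = ⊤
              · rw [hx2]
                simp
              · rw [ENNReal.mul_inv (Or.inl hx) (Or.inl hx2)]
          rw [hsq, hsq]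
          rcases le_total (X ^ s)⁻¹ (Y ^ s)⁻¹ with h5 | h5
          · calc (X ^ s)⁻¹ * (Y ^ s)⁻¹ ≤ (Y ^ s)⁻¹ * (Y ^ s)⁻¹ := by gcongr
              _ ≤ _ := le_add_self
          · calc (X ^ s)⁻¹ * (Y ^ s)⁻¹ ≤ (X ^ s)⁻¹ * (X ^ s)⁻¹ := by gcongr
              _ ≤ _ := le_self_add
  calc _ ≤ ∫⁻ t in {t : ℝ | 64 * Nc a b ≤ |d + ‖c‖ - 2 * t| ∧ 64 * Nc a b ≤ |d - ‖c‖ - 2 * t|},
        ENNReal.ofReal K ^ θ * (ENNReal.ofReal V ^ (4 : ℝ)) ^ θ *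
        ((ENNReal.ofReal (1 + |d + ‖c‖ - 2 * t|) ^ (2 * s))⁻¹ +
          (ENNReal.ofReal (1 + |d - ‖c‖ - 2 * t|) ^ (2 * s))⁻¹) := setLIntegral_mono' hms hpt
    _ ≤ ∫⁻ t : ℝ, ENNReal.ofReal K ^ θ * (ENNReal.ofReal V ^ (4 : ℝ)) ^ θ *
        ((ENNReal.ofReal (1 + |d + ‖c‖ - 2 * t|) ^ (2 * s))⁻¹ +
          (ENNReal.ofReal (1 + |d - ‖c‖ - 2 * t|) ^ (2 * s))⁻¹) := setLIntegral_le_lintegral _ _
    _ = ENNReal.ofReal K ^ θ * (ENNReal.ofReal V ^ (4 : ℝ)) ^ θ *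
        ((∫⁻ t : ℝ, (ENNReal.ofReal (1 + |d + ‖c‖ - 2 * t|) ^ (2 * s))⁻¹) +
          ∫⁻ t : ℝ, (ENNReal.ofReal (1 + |d - ‖c‖ - 2 * t|) ^ (2 * s))⁻¹) := by
        rw [lintegral_const_mul _ (by fun_prop), lintegral_add_left (by fun_prop)]
    _ ≤ ENNReal.ofReal K ^ θ * (ENNReal.ofReal V ^ (4 : ℝ)) ^ θ * (I + I) := by
        gcongr
        · exact Ir_shift (2 * s) (d + ‖c‖)
        · exact Ir_shift (2 * s) (d - ‖c‖)
    _ = _ := by ring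

theorem time_int (θ : ℝ) (hθ0 : 1 / 2 < θ) (hθ1 : θ < 1) : ∃ C : ℝ≥0∞, C ≠ ⊤ ∧
    ∀ (a b c e : ℂ) (d : ℝ) (g : ℂ → ℂ) (V : ℝ), LV g V →
      ∫⁻ t, aa (dens a b c e d g) t ^ θ ≤ C * (ENNReal.ofReal V ^ (4 : ℝ)) ^ θ := by
  obtain ⟨C1, hC1, h1⟩ := near_time θ hθ0 hθ1
  obtain ⟨C2, hC2, h2⟩ := far_time θ hθ0 hθ1
  refine ⟨C1 + C2, ENNReal.add_ne_top.mpr ⟨hC1, hC2⟩, ?_⟩
  intro a b c e d g V h
  have hN0 : 0 ≤ Nc a b := (norm_nonneg b).trans (Nc_b a b)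
  set F : Set ℝ := {t : ℝ | 64 * Nc a b ≤ |d + ‖c‖ - 2 * t| ∧ 64 * Nc a b ≤ |d - ‖c‖ - 2 * t|} with hF
  have hms : MeasurableSet F :=
    ms_far _ _ _
  have hadm := dens_adm a b c e d h
  have hvol : volume Fᶜ ≤ ENNReal.ofReal (128 * Nc a b) := by
    have hsub : Fᶜ ⊆ {t : ℝ | |d + ‖c‖ - 2 * t| < 64 * Nc a b} ∪ {t : ℝ | |d - ‖c‖ - 2 * t| < 64 * Nc a b} := by
      intro t ht
      by_contra hc
      apply ht
      rw [mem_union, not_or] at hc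
      exact ⟨not_lt.mp hc.1, not_lt.mp hc.2⟩
    calc volume Fᶜ ≤ _ := measure_mono hsub
      _ ≤ _ := measure_union_le _ _
      _ ≤ ENNReal.ofReal (64 * Nc a b) + ENNReal.ofReal (64 * Nc a b) :=
          add_le_add (vol_near _ _) (vol_near _ _)
      _ = _ := by
          rw [← ENNReal.ofReal_add (by positivity) (by positivity)]
          congr 1
          ring
  rw [← lintegral_add_compl _ hms, add_comm, add_mul]
  apply add_le_add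
  · calc ∫⁻ t in Fᶜ, aa (dens a b c e d g) t ^ θ
        ≤ (∫⁻ t in Fᶜ, aa (dens a b c e d g) t) ^ θ * (volume Fᶜ) ^ (1 - θ) :=
          holder_set _ (aa_meas _ hadm.meas) _ θ (by linarith) hθ1.le
      _ ≤ (∫⁻ t, aa (dens a b c e d g) t) ^ θ * (ENNReal.ofReal (128 * Nc a b)) ^ (1 - θ) := by
          have : 0 ≤ 1 - θ := by linarith
          gcongr
          exact Measure.restrict_le_self
      _ ≤ _ := h1 a b c e d g V h
  · exact h2 a b c e d g V h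

end Pool.Agent.Y250.CT
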