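import Mathlib
import Pool.Agent.Y250.CT.B1
set_option autoImplicit false

/-! The space time estimate for all exponents. -/

namespace Pool.Agent.Y250.CT

open MeasureTheory Set Complex Filter Topology
open scoped ENNReal NNReal ComplexConjugate FourierTransform

lemma f_two (f : ℂ → ℂ) (V : ℝ) (hf : Adm f V) : ∫⁻ ξ, ‖f ξ‖ₑ ^ 2 ≤ ENNReal.ofReal V ^ (2 : ℝ) := by
  have hV := hf.nonneg
  calc ∫⁻ ξ, ‖f ξ‖ₑ ^ 2 ≤ ∫⁻ ξ, (Metric.closedBall (0 : ℂ) (1 / 2)).indicator
        (fun _ => ENNReal.ofReal V ^ (2 : ℝ)) ξ := by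
        apply lintegral_mono
        intro ξ
        simp only
        by_cases h : ξ ∈ Metric.closedBall (0 : ℂ) (1 / 2)
        · rw [indicator_of_mem h, ENNReal.rpow_two]
          gcongr
          rw [← ofReal_norm]
          exact ENNReal.ofReal_le_ofReal (hf.bd ξ)
        · rw [indicator_of_notMem h]
          rw [mem_closedBall_zero_iff, not_le] at h
          rw [hf.supp ξ h]
          simp
    _ = ENNReal.ofReal V ^ (2 : ℝ) * volume (Metric.closedBall (0 : ℂ) (1 / 2)) := by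
        rw [lintegral_indicator Metric.isClosed_closedBall.measurableSet, setLIntegral_const]
    _ ≤ ENNReal.ofReal V ^ (2 : ℝ) * 1 := by
        gcongr
        rw [Complex.volume_closedBall, ← ENNReal.ofReal_pow (by norm_num),
          show (NNReal.pi : ℝ≥0∞) = ENNReal.ofReal Real.pi by
            rw [← NNReal.coe_real_pi, ENNReal.ofReal_coe_nnreal],
          ← ENNReal.ofReal_mul (by norm_num), ENNReal.ofReal_le_one]
        have := Real.pi_le_four
        nlinarith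
    _ = _ := mul_one _

lemma f_one (f : ℂ → ℂ) (V : ℝ) (hf : Adm f V) : ∫⁻ ξ, ‖f ξ‖ₑ ≤ ENNReal.ofReal V := by
  have hV := hf.nonneg
  calc ∫⁻ ξ, ‖f ξ‖ₑ ≤ ∫⁻ ξ, (Metric.closedBall (0 : ℂ) (1 / 2)).indicator
        (fun _ => ENNReal.ofReal V) ξ := by
        apply lintegral_mono
        intro ξ
        simp only
        by_cases h : ξ ∈ Metric.closedBall (0 : ℂ) (1 / 2)
        · rw [indicator_of_mem h, ← ofReal_norm]
          exact ENNReal.ofReal_le_ofReal (hf.bd ξ)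
        · rw [indicator_of_notMem h]
          rw [mem_closedBall_zero_iff, not_le] at h
          rw [hf.supp ξ h]
          simp
    _ = ENNReal.ofReal V * volume (Metric.closedBall (0 : ℂ) (1 / 2)) := by
        rw [lintegral_indicator Metric.isClosed_closedBall.measurableSet, setLIntegral_const]
    _ ≤ ENNReal.ofReal V * 1 := by
        gcongr
        rw [Complex.volume_closedBall, ← ENNReal.ofReal_pow (by norm_num),
          show (NNReal.pi : ℝ≥0∞) = ENNReal.ofReal Real.pi by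
            rw [← NNReal.coe_real_pi, ENNReal.ofReal_coe_nnreal],
          ← ENNReal.ofReal_mul (by norm_num), ENNReal.ofReal_le_one]
        have := Real.pi_le_four
        nlinarith
    _ = _ := mul_one _

theorem space_time (q : ℝ) (hq3 : 3 < q) (hq4 : q < 4) : ∃ C : ℝ≥0∞, C ≠ ⊤ ∧
    ∀ (a b c e : ℂ) (d : ℝ) (g : ℂ → ℂ) (V : ℝ), LV g V →
      ∫⁻ p, ‖Ext (dens a b c e d g) p‖ₑ ^ q ≤ C * ENNReal.ofReal V ^ q := by
  set θ : ℝ := (q - 2) / 2 with hθ
  have hθ1 : (4 - q) / 2 = 1 - θ := by rw [hθ]; ring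
  obtain ⟨C, hC, h⟩ := time_int θ (by rw [hθ]; linarith) (by rw [hθ]; linarith)
  have hθ0 : 0 ≤ θ := by rw [hθ]; linarith
  have h1θ : 0 ≤ 1 - θ := by rw [hθ]; linarith
  set P := ENNReal.ofReal ((2 * Real.pi) ^ 2) with hP
  have hPt : P ≠ ⊤ := ENNReal.ofReal_ne_top
  refine ⟨P ^ (1 - θ) * P ^ θ * C, ?_, ?_⟩
  · exact ENNReal.mul_ne_top (ENNReal.mul_ne_top (ENNReal.rpow_lt_top_of_nonneg h1θ hPt).ne
      (ENNReal.rpow_lt_top_of_nonneg hθ0 hPt).ne) hC
  intro a b c e d g V hg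
  have hadm := dens_adm a b c e d hg
  set f := dens a b c e d g with hf
  have hm : Measurable (Ext f) := Ext_meas f hadm.meas
  have hm2 : Measurable fun p : ℂ × ℝ => ‖Ext f p‖ₑ ^ q := hm.enorm.pow_const q
  rw [Measure.volume_eq_prod, lintegral_prod_symm _ hm2.aemeasurable]
  have hpt : ∀ t : ℝ, ∫⁻ x : ℂ, ‖Ext f (x, t)‖ₑ ^ q ≤
      (P * ENNReal.ofReal V ^ (2 : ℝ)) ^ (1 - θ) * (P * aa f t) ^ θ := by
    intro t
    have hmt : Measurable fun x : ℂ => ‖Ext f (x, t)‖ₑ := (hm.comp (by fun_prop)).enorm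
    have h1 := interp volume (fun x : ℂ => ‖Ext f (x, t)‖ₑ) hmt q (by linarith) hq4
    rw [hθ1, two f V hadm t, four f V hadm t] at h1
    refine h1.trans ?_
    have h2 := f_two f V hadm
    unfold aa
    gcongr
  calc ∫⁻ t : ℝ, ∫⁻ x : ℂ, ‖Ext f (x, t)‖ₑ ^ q
      ≤ ∫⁻ t : ℝ, (P * ENNReal.ofReal V ^ (2 : ℝ)) ^ (1 - θ) * (P * aa f t) ^ θ := lintegral_mono hpt
    _ = ∫⁻ t : ℝ, ((P * ENNReal.ofReal V ^ (2 : ℝ)) ^ (1 - θ) * P ^ θ) * aa f t ^ θ := by
        apply lintegral_congr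
        intro t
        rw [ENNReal.mul_rpow_of_nonneg _ _ hθ0]
        ring
    _ = ((P * ENNReal.ofReal V ^ (2 : ℝ)) ^ (1 - θ) * P ^ θ) * ∫⁻ t : ℝ, aa f t ^ θ :=
        lintegral_const_mul _ ((aa_meas f hadm.meas).pow_const θ)
    _ ≤ ((P * ENNReal.ofReal V ^ (2 : ℝ)) ^ (1 - θ) * P ^ θ) * (C * (ENNReal.ofReal V ^ (4 : ℝ)) ^ θ) := by
        gcongr
        exact h a b c e d g V hg
    _ = _ := by
        rw [ENNReal.mul_rpow_of_nonneg _ _ h1θ, ← ENNReal.rpow_mul, ← ENNReal.rpow_mul]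
        have e1 : ENNReal.ofReal V ^ (2 * (1 - θ)) * ENNReal.ofReal V ^ (4 * θ) = ENNReal.ofReal V ^ q := by
          rw [← ENNReal.rpow_add_of_nonneg _ _ (by linarith) (by linarith)]
          congr 1
          rw [hθ]
          ring
        rw [← e1]
        ring

/-- all exponents -/
theorem all_q (q : ℝ) (hq3 : 3 < q) : ∃ C : ℝ≥0∞, C ≠ ⊤ ∧
    ∀ (a b c e : ℂ) (d : ℝ) (g : ℂ → ℂ) (V : ℝ), LV g V →
      ∫⁻ p, ‖Ext (dens a b c e d g) p‖ₑ ^ q ≤ C * ENNReal.ofReal V ^ q := by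
  set q0 : ℝ := min q (7 / 2) with hq0
  have h1 : 3 < q0 := by rw [hq0]; exact lt_min hq3 (by norm_num)
  have h2 : q0 < 4 := by rw [hq0]; exact lt_of_le_of_lt (min_le_right _ _) (by norm_num)
  have h3 : q0 ≤ q := min_le_left _ _
  obtain ⟨C, hC, h⟩ := space_time q0 h1 h2
  refine ⟨C, hC, ?_⟩
  intro a b c e d g V hg
  have hadm := dens_adm a b c e d hg
  have hm : Measurable (Ext (dens a b c e d g)) := Ext_meas _ hadm.meas
  have hsup : ∀ p, ‖Ext (dens a b c e d g) p‖ₑ ≤ ENNReal.ofReal V := fun p =>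
    (Ext_sup _ p).trans (f_one _ V hadm)
  calc ∫⁻ p, ‖Ext (dens a b c e d g) p‖ₑ ^ q
      ≤ ∫⁻ p, ENNReal.ofReal V ^ (q - q0) * ‖Ext (dens a b c e d g) p‖ₑ ^ q0 := by
        apply lintegral_mono
        intro p
        have e1 : ‖Ext (dens a b c e d g) p‖ₑ ^ q =
            ‖Ext (dens a b c e d g) p‖ₑ ^ (q - q0) * ‖Ext (dens a b c e d g) p‖ₑ ^ q0 := by
          rw [← ENNReal.rpow_add_of_nonneg _ _ (by linarith) (by linarith)]
          congr 1
          ring
        simp only [e1]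
        have : 0 ≤ q - q0 := by linarith
        gcongr
        exact hsup p
    _ = ENNReal.ofReal V ^ (q - q0) * ∫⁻ p, ‖Ext (dens a b c e d g) p‖ₑ ^ q0 :=
        lintegral_const_mul _ (hm.enorm.pow_const q0)
    _ ≤ ENNReal.ofReal V ^ (q - q0) * (C * ENNReal.ofReal V ^ q0) := by
        gcongr
        exact h a b c e d g V hg
    _ = C * (ENNReal.ofReal V ^ (q - q0) * ENNReal.ofReal V ^ q0) := by ring
    _ = _ := by
        rw [← ENNReal.rpow_add_of_nonneg _ _ (by linarith) (by linarith)]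
        congr 2
        ring

end Pool.Agent.Y250.CT
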