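import Mathlib
import Pool.Agent.Y250.CT.B2
set_option autoImplicit false

/-! Real coordinates. -/

namespace Pool.Agent.Y250.CT

open MeasureTheory Set Complex Filter Topology
open scoped ENNReal NNReal ComplexConjugate

/-- the extension operator in real coordinates -/
noncomputable def ex (U : Set (ℝ × ℝ)) (f : ℝ × ℝ → ℂ) (ξ : ℝ × ℝ × ℝ) : ℂ :=
  ∫ x in U, cexp (-((x.1 * ξ.1 + x.2 * ξ.2.1 + (x.1 ^ 2 + x.2 ^ 2) * ξ.2.2 : ℝ) : ℂ) * I) * f x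

/-- real coordinates -/
def tc (z : ℂ) : ℝ × ℝ := (z.re, z.im)

lemma tc_mp : MeasurePreserving tc volume volume := Complex.volume_preserving_equiv_real_prod

lemma tc_emb : MeasurableEmbedding tc := Complex.measurableEquivRealProd.measurableEmbedding

lemma ex_eq (U : Set (ℝ × ℝ)) (f : ℝ × ℝ → ℂ) (hf : ∀ x, x ∉ U → f x = 0) (x : ℂ) (t : ℝ) :
    ex U f (x.re, x.im, t) = Ext (fun z => f (tc z)) (x, t) := by
  unfold ex Ext
  rw [setIntegral_eq_integral_of_forall_compl_eq_zero (fun y hy => by rw [hf y hy, mul_zero]),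
    ← tc_mp.integral_comp tc_emb]
  apply integral_congr_ae
  refine Filter.Eventually.of_forall fun z => ?_
  simp only
  congr 1
  unfold ee tc
  rw [nsq]
  unfold dt
  congr 1
  push_cast
  ring

/-- the coordinates of space -/
def sp (p : ℂ × ℝ) : ℝ × ℝ × ℝ := (p.1.re, p.1.im, p.2)

lemma sp_mp : MeasurePreserving sp volume volume := by
  have h1 : MeasurePreserving (Prod.map tc (id : ℝ → ℝ)) (volume : Measure (ℂ × ℝ)) (volume : Measure ((ℝ × ℝ) × ℝ)) :=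
    tc_mp.prod (MeasurePreserving.id volume)
  have h2 : MeasurePreserving (MeasurableEquiv.prodAssoc : (ℝ × ℝ) × ℝ ≃ᵐ ℝ × ℝ × ℝ) volume volume :=
    volume_preserving_prodAssoc
  exact h2.comp h1

lemma ex_meas (U : Set (ℝ × ℝ)) (f : ℝ × ℝ → ℂ) (hfm : Measurable f) (hf : ∀ x, x ∉ U → f x = 0) :
    Measurable (ex U f) := by
  have h : ex U f = fun ξ : ℝ × ℝ × ℝ => Ext (fun z => f (tc z)) ((ξ.1 : ℂ) + (ξ.2.1 : ℂ) * I, ξ.2.2) := by
    ext ξ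
    rw [← ex_eq U f hf]
    congr 1
    simp
  rw [h]
  apply (Ext_meas _ (hfm.comp tc_mp.measurable)).comp
  have h1 : Measurable fun ξ : ℝ × ℝ × ℝ => ((ξ.1 : ℂ) + (ξ.2.1 : ℂ) * I) := by fun_prop
  exact h1.prodMk (measurable_snd.comp measurable_snd)

lemma ex_norm (q : ℝ) (hq : 0 < q) (U : Set (ℝ × ℝ)) (f : ℝ × ℝ → ℂ) (hfm : Measurable f)
    (hf : ∀ x, x ∉ U → f x = 0) :
    eLpNorm (ex U f) (ENNReal.ofReal q) volume = (∫⁻ p, ‖Ext (fun z => f (tc z)) p‖ₑ ^ q) ^ (1 / q) := by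
  rw [eLpNorm_eq_lintegral_rpow_enorm_toReal (by simpa using hq) ENNReal.ofReal_ne_top, ENNReal.toReal_ofReal hq.le]
  congr 1
  rw [← sp_mp.lintegral_comp ((ex_meas U f hfm hf).enorm.pow_const q)]
  apply lintegral_congr
  intro p
  have h := ex_eq U f hf p.1 p.2
  unfold sp
  rw [h]

/-- real polynomials of degree at most three -/
def cubic (c : ℕ → ℕ → ℝ) (x : ℝ × ℝ) : ℝ :=
  ∑ i ∈ Finset.range 4, ∑ j ∈ Finset.range (4 - i), c i j * x.1 ^ i * x.2 ^ j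

lemma cubic_eq (c : ℕ → ℕ → ℝ) (z : ℂ) : cubic c (tc z) = c 0 0 + cub
    (⟨(c 3 0 - c 1 2) / 4, (c 0 3 - c 2 1) / 4⟩ : ℂ) (⟨(3 * c 3 0 + c 1 2) / 4, -(c 2 1 + 3 * c 0 3) / 4⟩ : ℂ)
    (⟨c 2 0 - c 0 2, -c 1 1⟩ : ℂ) (⟨c 1 0, -c 0 1⟩ : ℂ) (c 2 0 + c 0 2) z := by
  unfold cubic cub tc
  rw [nsq]
  have e2 : ((⟨c 2 0 - c 0 2, -c 1 1⟩ : ℂ) / 2 : ℂ) = ((1 / 2 : ℝ) : ℂ) * (⟨c 2 0 - c 0 2, -c 1 1⟩ : ℂ) := by
    push_cast; ring
  rw [e2]
  simp only [Finset.sum_range_succ, Finset.sum_range_zero, pow_succ, pow_zero, one_mul, Complex.add_re,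
    Complex.mul_re, Complex.mul_im, Complex.conj_re, Complex.conj_im, Complex.ofReal_re,
    Complex.ofReal_im, Nat.sub_zero, Nat.reduceSub]
  ring

theorem cubic_real (q : ℝ) (hq : 3 < q) : ∃ C : ℝ≥0∞, C ≠ ⊤ ∧
    ∀ (U : Set (ℝ × ℝ)) (c : ℕ → ℕ → ℝ) (g : ℝ × ℝ → ℂ) (V : ℝ≥0),
      (∀ x ∈ U, x.1 ^ 2 + x.2 ^ 2 ≤ 1 / 4) → Measurable g → (∀ x, x ∉ U → g x = 0) →
      (∀ z w : ℝ × ℝ, eVariationOn (fun s : ℝ => g (z + s • w)) univ ≤ V) →
      eLpNorm (ex U fun x => cexp (I * (cubic c x : ℂ)) * g x) (ENNReal.ofReal q) volume ≤ C * V := by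
  have hq0 : 0 < q := by linarith
  obtain ⟨C, hC, h⟩ := all_q q hq
  refine ⟨C ^ (1 / q), (ENNReal.rpow_lt_top_of_nonneg (by positivity) hC).ne, ?_⟩
  intro U c g V hU hg hgU hvar
  have hcm : Measurable fun x : ℝ × ℝ => cexp (I * (cubic c x : ℂ)) := by
    unfold cubic
    fun_prop
  have hfm : Measurable fun x : ℝ × ℝ => cexp (I * (cubic c x : ℂ)) * g x := hcm.mul hg
  rw [ex_norm q hq0 U (fun x => cexp (I * (cubic c x : ℂ)) * g x) hfm
    (fun x hx => by simp only [hgU x hx, mul_zero])]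
  set g' : ℂ → ℂ := fun z => ee (c 0 0) * g (tc z) with hg'
  have hLV : LV g' V := by
    refine ⟨(hg.comp tc_mp.measurable).const_mul _, V.2, ?_, ?_⟩
    · intro ξ hξ
      simp only [hg']
      rw [hgU, mul_zero]
      intro hin
      have h1 := hU _ hin
      have h2 := nsq ξ
      have h3 : (1 / 2 : ℝ) ^ 2 < ‖ξ‖ ^ 2 := pow_lt_pow_left₀ hξ (by norm_num) (by norm_num)
      unfold tc at h1
      simp only at h1
      linarith
    · intro z w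
      have h1 := hvar (tc z) (tc w)
      have e1 : (fun s : ℝ => g' (z + s * w)) = (fun x => ee (c 0 0) * x) ∘ fun s : ℝ => g (tc z + s • tc w) := by
        ext s
        simp only [hg', Function.comp]
        congr 2
        unfold tc
        ext <;> simp
      rw [e1]
      have h4 : LipschitzWith 1 (fun x : ℂ => ee (c 0 0) * x) := by
        apply LipschitzWith.of_dist_le_mul
        intro x y
        rw [NNReal.coe_one, one_mul, dist_eq_norm, dist_eq_norm, ← mul_sub, norm_mul, norm_ee, one_mul]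
      have h5 := h4.lipschitzOnWith.comp_eVariationOn_le (s := (univ : Set ℝ))
        (g := fun s : ℝ => g (tc z + s • tc w)) (mapsTo_univ _ univ)
      rw [ENNReal.coe_one, one_mul] at h5
      refine h5.trans (h1.trans (le_of_eq ?_))
      rw [ENNReal.ofReal_coe_nnreal]
  have h2 := h (⟨(c 3 0 - c 1 2) / 4, (c 0 3 - c 2 1) / 4⟩ : ℂ)
    (⟨(3 * c 3 0 + c 1 2) / 4, -(c 2 1 + 3 * c 0 3) / 4⟩ : ℂ)
    (⟨c 2 0 - c 0 2, -c 1 1⟩ : ℂ) (⟨c 1 0, -c 0 1⟩ : ℂ) (c 2 0 + c 0 2) g' V hLV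
  have e1 : (fun z : ℂ => cexp (I * (cubic c (tc z) : ℂ)) * g (tc z)) =
      dens (⟨(c 3 0 - c 1 2) / 4, (c 0 3 - c 2 1) / 4⟩ : ℂ)
        (⟨(3 * c 3 0 + c 1 2) / 4, -(c 2 1 + 3 * c 0 3) / 4⟩ : ℂ)
        (⟨c 2 0 - c 0 2, -c 1 1⟩ : ℂ) (⟨c 1 0, -c 0 1⟩ : ℂ) (c 2 0 + c 0 2) g' := by
    ext z
    unfold dens
    simp only [hg']
    rw [← mul_assoc, ← ee_add, add_comm _ (c 0 0), ← cubic_eq]
    unfold ee
    rw [mul_comm I]
  rw [e1]
  calc _ ≤ (C * ENNReal.ofReal V ^ q) ^ (1 / q) := by gcongr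
    _ = _ := by
        rw [ENNReal.mul_rpow_of_nonneg _ _ (by positivity), ← ENNReal.rpow_mul, mul_one_div_cancel hq0.ne',
          ENNReal.rpow_one, ENNReal.ofReal_coe_nnreal]

end Pool.Agent.Y250.CT
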